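import Pool.Agent.H95.GN.Facts

/-!
# The numerical classification of the genera above the threshold
-/

namespace Pool.Agent.H95.GN

/-- scroll type: the curve lies on a `P¹`-bundle over a curve of genus `p`, embedded with degree
`σ` and fibre degree one -/
def Scroll (t d g : ℕ) : Prop :=
  ∃ (σ p a : ℕ), 0 < σ ∧ σ < t ∧ p ≤ t ∧
    2 * (g : ℤ) - 2 = 2 * a * d - a ^ 2 * σ - 2 * d + (σ + 2 * p - 2) * a

/-- plane type -/
def Plane (t d g : ℕ) : Prop :=
  ∃ (k c : ℤ), k ^ 2 < t ∧ (d : ℤ) = k * c ∧ 2 * (g : ℤ) - 2 = c ^ 2 - 3 * c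

/-- Hirzebruch surface type -/
def Hirz (t d g : ℕ) : Prop :=
  ∃ (σ : ℕ) (κ m : ℤ), 0 < σ ∧ σ < t ∧ |κ| ≤ 3 * t ∧ 8 * (g : ℤ) * σ = (2 * d + κ) ^ 2 - m ^ 2

/-- blown up Hirzebruch surface type -/
def Blow (t d g : ℕ) : Prop :=
  ∃ (σ : ℕ) (κ : ℤ), 0 < σ ∧ σ < t ∧ |κ| ≤ 3 * t ∧
    0 ≤ (2 * (d : ℤ) + κ) ^ 2 - σ * (8 * g - 1) ∧
    ∀ q : ℕ, q.Prime → ¬ IsSquare (-(σ : ZMod q)) →
      (q : ℤ) ∣ (2 * (d : ℤ) + κ) ^ 2 - σ * (8 * g - 1) →
      (q : ℤ) ^ 2 ∣ (2 * (d : ℤ) + κ) ^ 2 - σ * (8 * g - 1)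

variable (T : Surfaces)

section basics

variable {T}
variable {x : T.X}

lemma dot_zero_left (a : T.Pic x) : T.dot x 0 a = 0 := by
  have := T.dot_add x 0 0 a
  rw [add_zero] at this
  linarith

lemma dot_neg (a b : T.Pic x) : T.dot x (-a) b = -T.dot x a b := by
  have := T.dot_add x (-a) a b
  rw [neg_add_cancel, dot_zero_left] at this
  linarith

lemma dot_nsmul (k : ℕ) (a b : T.Pic x) : T.dot x (k • a) b = k * T.dot x a b := by
  induction k with
  | zero => simp [dot_zero_left]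
  | succ k ih => rw [succ_nsmul, T.dot_add, ih]; push_cast; ring

lemma dot_smul (k : ℤ) (a b : T.Pic x) : T.dot x (k • a) b = k * T.dot x a b := by
  obtain ⟨m, rfl | rfl⟩ := Int.eq_nat_or_neg k
  · rw [natCast_zsmul, dot_nsmul]
  · rw [neg_smul, dot_neg, natCast_zsmul, dot_nsmul]; ring

lemma dot_add_right (a b c : T.Pic x) : T.dot x a (b + c) = T.dot x a b + T.dot x a c := by
  rw [T.dot_comm, T.dot_add, T.dot_comm x b a, T.dot_comm x c a]

lemma dot_smul_right (k : ℤ) (a b : T.Pic x) : T.dot x a (k • b) = k * T.dot x a b := by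
  rw [T.dot_comm, dot_smul, T.dot_comm x b a]

end basics

lemma tern_of_coords (b d g : ℕ) (x y m₁ m₂ : ℤ)
    (hd : (d : ℤ) = (b + 2) * x - b * y - m₁ - m₂)
    (hg : 2 * (g : ℤ) - 2 = x ^ 2 - y ^ 2 - m₁ ^ 2 - m₂ ^ 2 - 3 * x + y + m₁ + m₂) :
    Tern b d g := by
  refine ⟨x - y, x, m₁, m₂, by rw [hd]; ring, ?_⟩
  have h2 : 2 * (g : ℤ) - 2 + d = x ^ 2 - y ^ 2 - m₁ ^ 2 - m₂ ^ 2 - 3 * x + y + m₁ + m₂ +
    ((b + 2) * x - b * y - m₁ - m₂) := by rw [hg, ← hd]
  rw [h2, hd]; ring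

/-- the isotropic classes `F` with `K · F = -2` on the plane blown up in three points -/
lemma fibre_class (a c₀ c₁ c₂ : ℤ) (h1 : a ^ 2 - c₀ ^ 2 - c₁ ^ 2 - c₂ ^ 2 = 0)
    (h2 : -3 * a - (c₀ + c₁ + c₂) = -2) :
    a = 1 ∧ ((c₀ = -1 ∧ c₁ = 0 ∧ c₂ = 0) ∨ (c₀ = 0 ∧ c₁ = -1 ∧ c₂ = 0) ∨
      (c₀ = 0 ∧ c₁ = 0 ∧ c₂ = -1)) := by
  have h3 : c₀ + c₁ + c₂ = 2 - 3 * a := by linarith
  have h4 : (2 - 3 * a) ^ 2 ≤ 3 * a ^ 2 := by
    rw [← h3]
    nlinarith [sq_nonneg (c₀ - c₁), sq_nonneg (c₀ - c₂), sq_nonneg (c₁ - c₂)]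
  have ha : a = 1 := by
    have h5 : 6 * (a - 1) ^ 2 ≤ 2 := by nlinarith
    have h6 : (a - 1) ^ 2 = 0 := by
      have : 0 ≤ (a - 1) ^ 2 := sq_nonneg _
      omega
    have := pow_eq_zero_iff (two_ne_zero) |>.mp h6
    linarith
  subst ha
  refine ⟨rfl, ?_⟩
  have b0 : c₀ ^ 2 ≤ 1 := by nlinarith [sq_nonneg c₁, sq_nonneg c₂]
  have b1 : c₁ ^ 2 ≤ 1 := by nlinarith [sq_nonneg c₀, sq_nonneg c₂]
  have b2 : c₂ ^ 2 ≤ 1 := by nlinarith [sq_nonneg c₁, sq_nonneg c₀]
  have e0 := abs_le_one_iff_mul_self_le_one.mpr (by nlinarith : c₀ * c₀ ≤ 1)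
  have e1 := abs_le_one_iff_mul_self_le_one.mpr (by nlinarith : c₁ * c₁ ≤ 1)
  have e2 := abs_le_one_iff_mul_self_le_one.mpr (by nlinarith : c₂ * c₂ ≤ 1)
  rw [abs_le] at e0 e1 e2
  obtain ⟨l0, u0⟩ := e0
  obtain ⟨l1, u1⟩ := e1
  obtain ⟨l2, u2⟩ := e2
  interval_cases c₀ <;> interval_cases c₁ <;> interval_cases c₂ <;> simp_all

/-- The classification: a curve class on a surface with small sectional genus. -/
theorem classify (x : T.X) (H C : T.Pic x) (n t d g b : ℕ) (r : ℤ)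
    (hr : 6 ≤ r + 4)
    (hb : ∀ p : ℤ, p ≤ T.dot x H H + 1 - n → T.dot x H H - 4 * p ≤ 2 → p = b ∧
      T.dot x H H = 4 * b + 2)
    (hfree : H ∈ T.Free x) (hpos : 0 < T.dot x H H)
    (ht : T.dot x H H < t) (hE : ∀ E ∈ T.Exc x, 0 < T.dot x H E)
    (hh0 : n + 1 ≤ T.h0 x H) (hspec : T.dot x H H < 2 * ((n : ℤ) - 1))
    (hgap : ∀ p : ℤ, p ≤ T.dot x H H + 1 - n → r ≤ T.dot x H H - 4 * p)
    (hC : C ∈ T.Cur x) (hd : T.dot x H C = d)
    (hg : T.dot x C C + T.dot x (T.K x) C = 2 * (g : ℤ) - 2) :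
    Scroll t d g ∨ Plane t d g ∨ (r + 4 ≤ 8 ∧ Hirz t d g) ∨ (r + 4 ≤ 7 ∧ Blow t d g) ∨
      (r + 4 ≤ 6 ∧ 1 ≤ b ∧ Tern b d g) := by
  have hnef := T.free_nef x H hfree
  obtain ⟨p, hp, hcl⟩ := T.clifford x H hfree hpos
  have hh0' : (n : ℤ) + 1 ≤ T.h0 x H := by exact_mod_cast hh0
  have hp1 : (p : ℤ) ≤ T.dot x H H + 1 - n := by
    rcases hcl with h | h
    · exfalso; linarith
    · linarith
  have hr1 := hgap p hp1
  have hp0 : (0 : ℤ) ≤ p := by positivity
  have hKH : T.dot x (T.K x) H = 2 * p - 2 - T.dot x H H := by linarith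
  have hKHneg : T.dot x (T.K x) H < 0 := by linarith
  have hn1 : (1 : ℤ) ≤ n := by
    by_contra h
    push Not at h
    have : (n : ℤ) = 0 := by have : (0:ℤ) ≤ n := by positivity
                             linarith
    rw [this] at hspec
    linarith
  have hpt : (p : ℤ) ≤ t := by linarith
  obtain ⟨σ, hσ⟩ : ∃ σ : ℕ, T.dot x H H = σ := ⟨(T.dot x H H).toNat,
    (Int.toNat_of_nonneg hpos.le).symm⟩
  have hσ0 : 0 < σ := by rw [hσ] at hpos; exact_mod_cast hpos
  have hσt : σ < t := by rw [hσ] at ht; exact_mod_cast ht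
  have hκ : |T.dot x (T.K x) H| ≤ 3 * t := by
    rw [hKH, abs_le]
    constructor <;> linarith
  have hCH : T.dot x C H = d := by rw [T.dot_comm]; exact hd
  have planecase : (∃ L : T.Pic x, T.dot x L L = 1 ∧ T.K x = (-3 : ℤ) • L ∧
      (∀ C, ∃ c : ℤ, C = c • L)) → Plane t d g := by
    rintro ⟨L, hL, hK, hall⟩
    obtain ⟨k, hk⟩ := hall H
    obtain ⟨c, hc⟩ := hall C
    refine ⟨k, c, ?_, ?_, ?_⟩
    · have : T.dot x H H = k ^ 2 := by
        rw [hk, dot_smul, dot_smul_right, hL]; ring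
      rw [← this]; exact ht
    · rw [← hd, hk, hc, dot_smul, dot_smul_right, hL]; ring
    · rw [← hg, hK, hc]
      simp only [dot_smul, dot_smul_right, hL]
      ring
  rcases T.adjunction x H hnef hpos hE with hadj | hpl | hsc
  · -- `K + H` nef
    have hsq := T.nef_mul x _ hadj _ hadj
    have hadj2 := T.nef_mul x _ hadj _ hnef
    have hsq0 := hsq
    rw [T.dot_add, dot_add_right, dot_add_right, T.dot_comm x H (T.K x), hKH] at hsq
    have hK2 : r + 4 ≤ T.dot x (T.K x) (T.K x) := by linarith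
    -- the class `2 C + K`
    set D : T.Pic x := (2 : ℤ) • C + T.K x with hD
    have hDD : T.dot x D D = 8 * g - 8 + T.dot x (T.K x) (T.K x) := by
      rw [hD]
      simp only [T.dot_add, dot_add_right, dot_smul, dot_smul_right]
      rw [T.dot_comm x C (T.K x)]
      linarith
    have hDH : T.dot x D H = 2 * d + T.dot x (T.K x) H := by
      rw [hD, T.dot_add, dot_smul, hCH]
    rcases T.rational x H hnef hKHneg (by linarith) with h9 | h8 | h7 | h6
    · exact Or.inr (Or.inl (planecase h9.2))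
    · -- Hirzebruch surfaces
      obtain ⟨hK8, e, s, f, hss, hsf, hff, hall⟩ := h8
      refine Or.inr (Or.inr (Or.inl ⟨by linarith, ?_⟩))
      obtain ⟨h1, h2, hH⟩ := hall H
      obtain ⟨d1, d2, hDc⟩ := hall D
      have hfs : T.dot x f s = 1 := by rw [T.dot_comm]; exact hsf
      refine ⟨σ, T.dot x (T.K x) H, h1 * d2 - h2 * d1, hσ0, hσt, hκ, ?_⟩
      have gram : T.dot x H H * T.dot x D D - T.dot x D H ^ 2 = -(h1 * d2 - h2 * d1) ^ 2 := by
        rw [hH, hDc]
        simp only [T.dot_add, dot_add_right, dot_smul, dot_smul_right, hss, hsf, hff, hfs]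
        ring
      rw [hDD, hDH, hK8, hσ] at gram
      linarith
    · -- blown up Hirzebruch surfaces
      obtain ⟨hK7, e, s, f, E, hss, hsf, hff, hEE, hEs, hEf, hall⟩ := h7
      refine Or.inr (Or.inr (Or.inr (Or.inl ⟨by linarith, ?_⟩)))
      obtain ⟨h1, h2, h3, hH⟩ := hall H
      obtain ⟨d1, d2, d3, hDc⟩ := hall D
      have hfs : T.dot x f s = 1 := by rw [T.dot_comm]; exact hsf
      have hsE : T.dot x s E = 0 := by rw [T.dot_comm]; exact hEs
      have hfE : T.dot x f E = 0 := by rw [T.dot_comm]; exact hEf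
      -- the orthogonal projection
      set w : T.Pic x := (σ : ℤ) • D + (-(T.dot x D H)) • H with hw
      have hwH : T.dot x w H = 0 := by
        rw [hw, T.dot_add, dot_smul, dot_smul, hσ]; ring
      have hww : T.dot x w w = -(σ * ((2 * (d : ℤ) + T.dot x (T.K x) H) ^ 2 -
          σ * (8 * g - 1))) := by
        rw [hw]
        simp only [T.dot_add, dot_add_right, dot_smul, dot_smul_right]
        rw [T.dot_comm x H D, hσ, hDD, hDH, hK7]; ring
      have hhodge := T.hodge x H w hpos hwH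
      have hσ0' : (0 : ℤ) < σ := by exact_mod_cast hσ0
      set M : ℤ := (2 * (d : ℤ) + T.dot x (T.K x) H) ^ 2 - σ * (8 * g - 1) with hM
      have hM0 : 0 ≤ M := by
        by_contra hneg
        push Not at hneg
        have : 0 < -(σ * M) := by nlinarith
        linarith
      refine ⟨σ, T.dot x (T.K x) H, hσ0, hσt, hκ, hM0, ?_⟩
      intro q hq hns hqM
      have := Fact.mk hq
      -- coordinates of `w`
      obtain ⟨w1, w2, w3, hwc⟩ := hall w
      have hσform : (σ : ℤ) = -e * h1 ^ 2 + 2 * h1 * h2 - h3 ^ 2 := by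
        rw [← hσ, hH]
        simp only [T.dot_add, dot_add_right, dot_smul, dot_smul_right, hss, hsf, hff, hfs, hEE,
          hEs, hEf, hsE, hfE]
        ring
      have hwHform : -e * w1 * h1 + w1 * h2 + w2 * h1 - w3 * h3 = 0 := by
        rw [← hwH, hH, hwc]
        simp only [T.dot_add, dot_add_right, dot_smul, dot_smul_right, hss, hsf, hff, hfs, hEE,
          hEs, hEf, hsE, hfE]
        ring
      have hwwform : -e * w1 ^ 2 + 2 * w1 * w2 - w3 ^ 2 = -(σ * M) := by
        rw [← hww, hwc]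
        simp only [T.dot_add, dot_add_right, dot_smul, dot_smul_right, hss, hsf, hff, hfs, hEE,
          hEs, hEf, hsE, hfE]
        ring
      -- reduce modulo q
      have hM' : ((M : ℤ) : ZMod q) = 0 := (ZMod.intCast_zmod_eq_zero_iff_dvd M q).mpr hqM
      have a1 : (-e * w1 * h1 + w1 * h2 + w2 * h1 - w3 * h3 : ZMod q) = 0 := by
        have := congrArg (fun z : ℤ => (z : ZMod q)) hwHform
        push_cast at this; exact this
      have a2 : (-e * w1 ^ 2 + 2 * w1 * w2 - w3 ^ 2 : ZMod q) = 0 := by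
        have := congrArg (fun z : ℤ => (z : ZMod q)) hwwform
        push_cast at this; rw [hM'] at this
        rw [this]; ring
      have a3 : (σ : ZMod q) = -e * h1 ^ 2 + 2 * h1 * h2 - h3 ^ 2 := by
        have := congrArg (fun z : ℤ => (z : ZMod q)) hσform
        push_cast at this; exact this
      -- if some intersection number of `w` is nonzero modulo `q`, `-σ` is a square
      have key : ∀ u1 u2 u3 : ZMod q,
          -e * w1 * u1 + w1 * u2 + w2 * u1 - w3 * u3 = 0 := by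
        intro u1 u2 u3
        by_contra hb
        apply hns
        set β : ZMod q := -e * w1 * u1 + w1 * u2 + w2 * u1 - w3 * u3 with hβ
        -- determinant of the coordinate matrix
        set δ : ZMod q := h1 * (w2 * u3 - w3 * u2) - h2 * (w1 * u3 - w3 * u1) +
          h3 * (w1 * u2 - w2 * u1) with hδ
        have hdet : -(σ : ZMod q) * β ^ 2 = δ ^ 2 := by
          have id1 : ((-e * h1 ^ 2 + 2 * h1 * h2 - h3 ^ 2) *
              ((-e * w1 ^ 2 + 2 * w1 * w2 - w3 ^ 2) * (-e * u1 ^ 2 + 2 * u1 * u2 - u3 ^ 2) -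
                β ^ 2) -
              (-e * w1 * h1 + w1 * h2 + w2 * h1 - w3 * h3) *
              ((-e * w1 * h1 + w1 * h2 + w2 * h1 - w3 * h3) *
                (-e * u1 ^ 2 + 2 * u1 * u2 - u3 ^ 2) -
                β * (-e * h1 * u1 + h1 * u2 + h2 * u1 - h3 * u3)) +
              (-e * h1 * u1 + h1 * u2 + h2 * u1 - h3 * u3) *
              ((-e * w1 * h1 + w1 * h2 + w2 * h1 - w3 * h3) * β -
                (-e * w1 ^ 2 + 2 * w1 * w2 - w3 ^ 2) *
                (-e * h1 * u1 + h1 * u2 + h2 * u1 - h3 * u3)) : ZMod q) = δ ^ 2 := by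
            rw [hβ, hδ]; ring
          rw [a1, a2, ← a3] at id1
          rw [← id1]; ring
        refine ⟨δ / β, ?_⟩
        have : -(σ : ZMod q) = δ ^ 2 / β ^ 2 := by
          rw [eq_div_iff (pow_ne_zero 2 hb)]; exact hdet
        rw [this, ← div_pow, sq]
      have b1 : (w1 : ZMod q) = 0 := by
        have := key 0 1 0
        simpa using this
      have b3 : (w3 : ZMod q) = 0 := by
        have := key 0 0 1
        simpa using this
      have b2 : (w2 : ZMod q) = 0 := by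
        have := key 1 0 0
        simpa [b1] using this
      obtain ⟨v1, hv1⟩ := (ZMod.intCast_zmod_eq_zero_iff_dvd w1 q).mp b1
      obtain ⟨v2, hv2⟩ := (ZMod.intCast_zmod_eq_zero_iff_dvd w2 q).mp b2
      obtain ⟨v3, hv3⟩ := (ZMod.intCast_zmod_eq_zero_iff_dvd w3 q).mp b3
      have hdvd : (q : ℤ) ^ 2 ∣ σ * M := by
        refine ⟨-(-e * v1 ^ 2 + 2 * v1 * v2 - v3 ^ 2), ?_⟩
        have : (σ : ℤ) * M = -(-e * w1 ^ 2 + 2 * w1 * w2 - w3 ^ 2) := by
          rw [hwwform]; ring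
        rw [this, hv1, hv2, hv3]; ring
      have hcop : IsCoprime ((q : ℤ) ^ 2) (σ : ℤ) := by
        apply IsCoprime.pow_left
        rw [Nat.isCoprime_iff_coprime]
        rw [hq.coprime_iff_not_dvd]
        intro hqσ
        apply hns
        have : (σ : ZMod q) = 0 := (ZMod.natCast_eq_zero_iff σ q).mpr hqσ
        rw [this]; exact ⟨0, by simp⟩
      exact hcop.dvd_of_dvd_mul_left hdvd
    · -- the plane blown up in three points
      obtain ⟨hK6, L, E₀, E₁, E₂, hLL, h00, h11, h22, hL0, hL1, hL2, h01, h02, h12, hK, hall⟩ := h6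
      have h0L : T.dot x E₀ L = 0 := by rw [T.dot_comm]; exact hL0
      have h1L : T.dot x E₁ L = 0 := by rw [T.dot_comm]; exact hL1
      have h2L : T.dot x E₂ L = 0 := by rw [T.dot_comm]; exact hL2
      have h10 : T.dot x E₁ E₀ = 0 := by rw [T.dot_comm]; exact h01
      have h20 : T.dot x E₂ E₀ = 0 := by rw [T.dot_comm]; exact h02
      have h21 : T.dot x E₂ E₁ = 0 := by rw [T.dot_comm]; exact h12
      have hgap2 : T.dot x H H - 4 * (p : ℤ) ≤ 2 := by rw [hK6] at hsq; linarith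
      obtain ⟨hpb, hHb⟩ := hb p hp1 hgap2
      have hKHb : T.dot x (T.K x) H = -2 * b - 4 := by rw [hKH, hHb, hpb]; ring
      have hb1 : (1 : ℤ) ≤ b := by
        rw [T.dot_add, hKHb, hHb] at hadj2
        linarith
      refine Or.inr (Or.inr (Or.inr (Or.inr ⟨by linarith, by exact_mod_cast hb1, ?_⟩)))
      have hsqz : T.dot x (T.K x + H) (T.K x + H) = 0 := by
        rw [T.dot_add, dot_add_right, dot_add_right, T.dot_comm x H (T.K x), hKHb, hK6, hHb]
        ring
      obtain ⟨α, β₀, β₁, β₂, hCc⟩ := hall C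
      have hgC : T.dot x C C + T.dot x (T.K x) C = α ^ 2 - β₀ ^ 2 - β₁ ^ 2 - β₂ ^ 2 - 3 * α -
          β₀ - β₁ - β₂ := by
        rw [hK, hCc]
        simp only [T.dot_add, dot_add_right, dot_smul, dot_smul_right, hLL, h00, h11, h22, hL0,
          hL1, hL2, h01, h02, h12, h0L, h1L, h2L, h10, h20, h21]
        ring
      have hKeq : H = (T.K x + H) + (-1 : ℤ) • T.K x := by
        rw [neg_one_zsmul]; abel
      have hKC : T.dot x (T.K x) C = -3 * α - β₀ - β₁ - β₂ := by
        rw [hK, hCc]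
        simp only [T.dot_add, dot_add_right, dot_smul, dot_smul_right, hLL, h00, h11, h22, hL0,
          hL1, hL2, h01, h02, h12, h0L, h1L, h2L, h10, h20, h21]
        ring
      have hHC : (d : ℤ) = T.dot x (T.K x + H) C - (-3 * α - β₀ - β₁ - β₂) := by
        have h1 : T.dot x H C = T.dot x (T.K x + H) C - T.dot x (T.K x) C := by
          rw [T.dot_add]; ring
        rw [← hd, h1, hKC]
      rcases T.conic x H hnef hpos hE hKHneg (by rw [hK6]) hadj hsqz with h0 | ⟨F, m, hFF, hKF, hm⟩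
      · -- `H = -K`
        have hb2 : (b : ℤ) = 1 := by
          have : T.dot x (T.K x + H) (T.K x) = 0 := by rw [h0, dot_zero_left]
          rw [T.dot_add, hK6, T.dot_comm x H, hKHb] at this
          linarith
        rw [h0, dot_zero_left] at hHC
        refine tern_of_coords b d g α (-β₀) (-β₁) (-β₂) ?_ ?_
        · rw [hb2, hHC]; ring
        · rw [← hg, hgC]; ring
      · obtain ⟨a, c₀, c₁, c₂, hFc⟩ := hall F
        have f1 : a ^ 2 - c₀ ^ 2 - c₁ ^ 2 - c₂ ^ 2 = 0 := by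
          rw [← hFF, hFc]
          simp only [T.dot_add, dot_add_right, dot_smul, dot_smul_right, hLL, h00, h11, h22, hL0,
            hL1, hL2, h01, h02, h12, h0L, h1L, h2L, h10, h20, h21]
          ring
        have f2 : -3 * a - (c₀ + c₁ + c₂) = -2 := by
          rw [← hKF, hFc, hK]
          simp only [T.dot_add, dot_add_right, dot_smul, dot_smul_right, hLL, h00, h11, h22, hL0,
            hL1, hL2, h01, h02, h12, h0L, h1L, h2L, h10, h20, h21]
          ring
        have hmb : m = b - 1 := by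
          have : T.dot x (T.K x + H) (T.K x) = -2 * m := by
            rw [hm, dot_smul, T.dot_comm, hKF]; ring
          rw [T.dot_add, hK6, T.dot_comm x H, hKHb] at this
          linarith
        have hFC : T.dot x F C = a * α - c₀ * β₀ - c₁ * β₁ - c₂ * β₂ := by
          rw [hFc, hCc]
          simp only [T.dot_add, dot_add_right, dot_smul, dot_smul_right, hLL, h00, h11, h22, hL0,
            hL1, hL2, h01, h02, h12, h0L, h1L, h2L, h10, h20, h21]
          ring
        rw [hm, dot_smul, hFC, hmb] at hHC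
        obtain ⟨ha, hc⟩ := fibre_class a c₀ c₁ c₂ f1 f2
        rcases hc with ⟨e0, e1, e2⟩ | ⟨e0, e1, e2⟩ | ⟨e0, e1, e2⟩
        · rw [ha, e0, e1, e2] at hHC
          refine tern_of_coords b d g α (-β₀) (-β₁) (-β₂) ?_ ?_
          · rw [hHC]; ring
          · rw [← hg, hgC]; ring
        · rw [ha, e0, e1, e2] at hHC
          refine tern_of_coords b d g α (-β₁) (-β₀) (-β₂) ?_ ?_
          · rw [hHC]; ring
          · rw [← hg, hgC]; ring
        · rw [ha, e0, e1, e2] at hHC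
          refine tern_of_coords b d g α (-β₂) (-β₀) (-β₁) ?_ ?_
          · rw [hHC]; ring
          · rw [← hg, hgC]; ring
  · exact Or.inr (Or.inl (planecase hpl))
  · -- scrolls
    obtain ⟨F, hF, hHF, hFF, hKF, hall⟩ := hsc
    left
    obtain ⟨a, b, hCab⟩ := hall C
    obtain ⟨a', b', hKab⟩ := hall (T.K x)
    have hFH : T.dot x F H = 1 := by rw [T.dot_comm]; exact hHF
    have hFC : T.dot x F C = a := by
      rw [T.dot_comm, hCab F, hHF, hFF]; ring
    have ha0 : 0 ≤ a := by rw [← hFC]; exact T.nef_cur x F hF C hC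
    have hdab : (d : ℤ) = a * σ + b := by
      rw [← hCH, hCab H, hσ, hFH]; ring
    have ha' : a' = -2 := by
      have := hKab F
      rw [hKF, hHF, hFF] at this
      linarith
    have hb' : b' = σ + 2 * p - 2 := by
      have := hKab H
      rw [hKH, hσ, hFH, ha'] at this
      linarith
    obtain ⟨A, rfl⟩ : ∃ A : ℕ, a = A := ⟨a.toNat, (Int.toNat_of_nonneg ha0).symm⟩
    refine ⟨σ, p, A, hσ0, hσt, by exact_mod_cast hpt, ?_⟩
    rw [← hg, hCab C, hKab C, hd, hFC, ha', hb']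
    have : b = d - A * σ := by linarith
    rw [this]; ring

end Pool.Agent.H95.GN
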