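import Pool.Agent.H95.GN.Class

/-!
# Counting the genera of each type
-/

namespace Pool.Agent.H95.GN

open Finset

lemma count_scroll (t d : ℕ) (hd : 1 ≤ d) (F : Finset ℕ) (hF : ∀ g ∈ F, Scroll t d g) :
    F.card ≤ t * ((t + 1) * (2 * d + 3 * t + 1)) := by
  classical
  let φ : ℕ × ℕ × ℕ → ℕ := fun v =>
    ((2 * (v.2.2 : ℤ) * d - (v.2.2 : ℤ) ^ 2 * v.1 - 2 * d +
      ((v.1 : ℤ) + 2 * v.2.1 - 2) * v.2.2 + 2) / 2).toNat
  have hsub : F ⊆ ((range t) ×ˢ ((range (t + 1)) ×ˢ (range (2 * d + 3 * t + 1)))).image φ := by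
    intro g hg
    obtain ⟨σ, p, a, hσ0, hσt, hpt, hga⟩ := hF g hg
    rw [mem_image]
    refine ⟨(σ, p, a), ?_, ?_⟩
    · simp only [mem_product, mem_range]
      refine ⟨hσt, by omega, ?_⟩
      by_contra hcon
      push Not at hcon
      have h1 : (2 * (d : ℤ) + 3 * t + 1) ≤ a := by exact_mod_cast hcon
      have h2 : (1 : ℤ) ≤ σ := by exact_mod_cast hσ0
      have h3 : (σ : ℤ) ≤ t := by exact_mod_cast hσt.le
      have h4 : (p : ℤ) ≤ t := by exact_mod_cast hpt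
      have h5 : (0 : ℤ) ≤ g := by positivity
      have h6 : (1 : ℤ) ≤ d := by exact_mod_cast hd
      have h7 : (0 : ℤ) ≤ t := by positivity
      have h8 : (a : ℤ) * a ≤ a ^ 2 * σ := by nlinarith [sq_nonneg (a : ℤ)]
      have h9 : (a : ℤ) * a ≤ a * (2 * d + σ + 2 * p) := by nlinarith
      have h10 : (a : ℤ) ≤ 2 * d + σ + 2 * p := le_of_mul_le_mul_left h9 (by linarith)
      linarith
    · have : (2 * (a : ℤ) * d - (a : ℤ) ^ 2 * σ - 2 * d + ((σ : ℤ) + 2 * p - 2) * a + 2) =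
          2 * g := by linarith
      simp only [φ]
      rw [this, Int.mul_ediv_cancel_left _ (by norm_num), Int.toNat_natCast]
  refine le_trans (card_le_card hsub) (le_trans card_image_le ?_)
  rw [card_product, card_product, card_range, card_range, card_range]

lemma count_plane (t d : ℕ) (hd : 1 ≤ d) (F : Finset ℕ) (hF : ∀ g ∈ F, Plane t d g) :
    F.card ≤ 2 * t + 1 := by
  classical
  let φ : ℤ → ℕ := fun k => ((((d : ℤ) / k) ^ 2 - 3 * ((d : ℤ) / k) + 2) / 2).toNat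
  have hsub : F ⊆ (Icc (-(t : ℤ)) t).image φ := by
    intro g hg
    obtain ⟨k, c, hk, hdk, hgc⟩ := hF g hg
    rw [mem_image]
    have hk0 : k ≠ 0 := by
      rintro rfl
      rw [zero_mul] at hdk
      have : (1 : ℤ) ≤ d := by exact_mod_cast hd
      linarith
    refine ⟨k, ?_, ?_⟩
    · rw [mem_Icc]
      constructor
      · by_contra hcon
        push Not at hcon
        have : (0 : ℤ) ≤ t := by positivity
        nlinarith
      · by_contra hcon
        push Not at hcon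
        have : (0 : ℤ) ≤ t := by positivity
        nlinarith
    · simp only [φ]
      have hc : (d : ℤ) / k = c := by rw [hdk, Int.mul_ediv_cancel_left _ hk0]
      rw [hc]
      have : c ^ 2 - 3 * c + 2 = 2 * g := by linarith
      rw [this, Int.mul_ediv_cancel_left _ (by norm_num), Int.toNat_natCast]
  refine le_trans (card_le_card hsub) (le_trans card_image_le ?_)
  rw [Int.card_Icc]
  omega

lemma count_hirz (t d : ℕ) (F : Finset ℕ) (hF : ∀ g ∈ F, Hirz t d g) :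
    F.card ≤ t * ((6 * t + 1) * (4 * d + 6 * t + 1)) := by
  classical
  let φ : ℕ × ℤ × ℤ → ℕ := fun v =>
    (((2 * (d : ℤ) + v.2.1) ^ 2 - v.2.2 ^ 2) / (8 * v.1)).toNat
  have hsub : F ⊆ ((range t) ×ˢ ((Icc (-(3 * t : ℤ)) (3 * t)) ×ˢ
      (Icc (-(2 * d + 3 * t : ℤ)) (2 * d + 3 * t)))).image φ := by
    intro g hg
    obtain ⟨σ, κ, m, hσ0, hσt, hκ, hgm⟩ := hF g hg
    rw [mem_image]
    have h2 : (1 : ℤ) ≤ σ := by exact_mod_cast hσ0
    rw [abs_le] at hκ
    have h5 : (0 : ℤ) ≤ g := by positivity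
    have hdn : (0 : ℤ) ≤ d := by positivity
    refine ⟨(σ, κ, m), ?_, ?_⟩
    · simp only [mem_product, mem_range, mem_Icc]
      have hm2 : m ^ 2 ≤ (2 * (d : ℤ) + κ) ^ 2 := by nlinarith
      have hm3 : |m| ≤ |2 * (d : ℤ) + κ| := sq_le_sq.mp hm2
      have hm4 : |2 * (d : ℤ) + κ| ≤ 2 * d + 3 * t := by
        rw [abs_le]; constructor <;> linarith [hκ.1, hκ.2]
      have hm5 := abs_le.mp (le_trans hm3 hm4)
      refine ⟨hσt, ⟨hκ.1, hκ.2⟩, ⟨by linarith [hm5.1], hm5.2⟩⟩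
    · simp only [φ]
      rw [← hgm]
      have : 8 * (g : ℤ) * σ = (8 * σ) * g := by ring
      rw [this, Int.mul_ediv_cancel_left _ (by linarith), Int.toNat_natCast]
  refine le_trans (card_le_card hsub) (le_trans card_image_le ?_)
  rw [card_product, card_product, card_range, Int.card_Icc, Int.card_Icc]
  apply Nat.mul_le_mul_left
  apply Nat.mul_le_mul <;> omega

/-- all types except the last two together are linear in `d` -/
theorem count_lin (t : ℕ) : ∃ C : ℕ, ∀ d : ℕ, 1 ≤ d → ∀ F : Finset ℕ,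
    (∀ g ∈ F, Scroll t d g ∨ Plane t d g ∨ Hirz t d g) → F.card ≤ C * d := by
  classical
  refine ⟨t * ((t + 1) * (3 * t + 3)) + (2 * t + 1) + t * ((6 * t + 1) * (6 * t + 5)),
    fun d hd F hF => ?_⟩
  have h1 := count_scroll t d hd (F.filter (fun g => Scroll t d g))
    (fun g hg => (mem_filter.mp hg).2)
  have h2 := count_plane t d hd (F.filter (fun g => Plane t d g))
    (fun g hg => (mem_filter.mp hg).2)
  have h3 := count_hirz t d (F.filter (fun g => Hirz t d g))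
    (fun g hg => (mem_filter.mp hg).2)
  have hsub : F ⊆ (F.filter (fun g => Scroll t d g)) ∪ ((F.filter (fun g => Plane t d g)) ∪
      (F.filter (fun g => Hirz t d g))) := by
    intro g hg
    rw [mem_union, mem_union, mem_filter, mem_filter, mem_filter]
    rcases hF g hg with h | h | h
    · exact Or.inl ⟨hg, h⟩
    · exact Or.inr (Or.inl ⟨hg, h⟩)
    · exact Or.inr (Or.inr ⟨hg, h⟩)
  have hcard := le_trans (card_le_card hsub) (le_trans (card_union_le _ _)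
    (Nat.add_le_add_left (card_union_le _ _) _))
  have e1 : 2 * d + 3 * t + 1 ≤ (3 * t + 3) * d := by nlinarith
  have e2 : 4 * d + 6 * t + 1 ≤ (6 * t + 5) * d := by nlinarith
  have e3 : t * ((t + 1) * (2 * d + 3 * t + 1)) ≤ t * ((t + 1) * (3 * t + 3)) * d := by
    calc t * ((t + 1) * (2 * d + 3 * t + 1)) ≤ t * ((t + 1) * ((3 * t + 3) * d)) :=
          Nat.mul_le_mul_left _ (Nat.mul_le_mul_left _ e1)
      _ = t * ((t + 1) * (3 * t + 3)) * d := by ring
  have e4 : t * ((6 * t + 1) * (4 * d + 6 * t + 1)) ≤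
      t * ((6 * t + 1) * (6 * t + 5)) * d := by
    calc t * ((6 * t + 1) * (4 * d + 6 * t + 1)) ≤ t * ((6 * t + 1) * ((6 * t + 5) * d)) :=
          Nat.mul_le_mul_left _ (Nat.mul_le_mul_left _ e2)
      _ = t * ((6 * t + 1) * (6 * t + 5)) * d := by ring
  have e5 : 2 * t + 1 ≤ (2 * t + 1) * d := Nat.le_mul_of_pos_right _ hd
  calc F.card ≤ _ := hcard
    _ ≤ t * ((t + 1) * (3 * t + 3)) * d + ((2 * t + 1) * d +
        t * ((6 * t + 1) * (6 * t + 5)) * d) := by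
        refine Nat.add_le_add (le_trans h1 e3) (Nat.add_le_add (le_trans h2 e5)
          (le_trans h3 e4))
    _ = _ := by ring

/-- the condition of the sieve at one pair `(σ, κ)` -/
def SieveCond (d σ : ℕ) (κ : ℤ) (g : ℕ) : Prop :=
  0 < σ ∧ 0 ≤ (2 * (d : ℤ) + κ) ^ 2 - (σ : ℤ) * (8 * (g : ℤ) - 1) ∧
    ∀ q : ℕ, q.Prime → ¬ IsSquare (-(σ : ZMod q)) →
      (q : ℤ) ∣ (2 * (d : ℤ) + κ) ^ 2 - (σ : ℤ) * (8 * (g : ℤ) - 1) →
        (q : ℤ) ^ 2 ∣ (2 * (d : ℤ) + κ) ^ 2 - (σ : ℤ) * (8 * (g : ℤ) - 1)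

/-- the blown up Hirzebruch surfaces give `o(d ^ 2)` genera -/
theorem count_blow (sv : ∀ (σ : ℕ), 0 < σ → ∀ ε : ℝ, 0 < ε → ∃ D : ℕ, ∀ (A : ℤ) (L : ℕ),
      D ≤ L → ∀ F : Finset ℕ, (∀ g ∈ F, g < L ∧ ∀ q : ℕ, q.Prime →
        ¬ IsSquare (-(σ : ZMod q)) → (q : ℤ) ∣ A - σ * (8 * g - 1) →
          (q : ℤ) ^ 2 ∣ A - σ * (8 * g - 1)) → (F.card : ℝ) ≤ ε * L)
    (t : ℕ) (ε : ℝ) (hε : 0 < ε) :
    ∃ D : ℕ, ∀ d : ℕ, D ≤ d → ∀ F : Finset ℕ, (∀ g ∈ F, Blow t d g) →
      (F.card : ℝ) ≤ ε * d ^ 2 := by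
  classical
  rcases Nat.eq_zero_or_pos t with rfl | ht
  · refine ⟨0, fun d _ F hF => ?_⟩
    have : F = ∅ := by
      rw [eq_empty_iff_forall_notMem]
      intro g hg
      obtain ⟨σ, κ, h1, h2, -⟩ := hF g hg
      omega
    rw [this]; simp; positivity
  set ε' : ℝ := ε / (10 * (t * (6 * t + 1))) with hε'
  have htR : (0 : ℝ) < t := by exact_mod_cast ht
  have hε'0 : 0 < ε' := by positivity
  choose! Dσ hDσ using fun (σ : ℕ) (hσ : 0 < σ) => sv σ hσ ε' hε'0
  set D0 := (range t).sup Dσ with hD0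
  refine ⟨D0 + 3 * t + 1, fun d hd F hF => ?_⟩
  set L : ℕ := (2 * d + 3 * t) ^ 2 + 1 with hL
  have hLD : D0 ≤ L := by
    have h1 : D0 ≤ d := by omega
    have h2 : d ≤ d * d := Nat.le_mul_self d
    rw [hL]; nlinarith
  -- the pieces
  have hpiece : ∀ v ∈ (range t) ×ˢ (Icc (-(3 * t : ℤ)) (3 * t)),
      ((F.filter (fun g : ℕ => SieveCond d v.1 v.2 g)).card : ℝ) ≤ ε' * L := by
    rintro ⟨σ, κ⟩ hv
    rw [mem_product, mem_range, mem_Icc] at hv
    obtain ⟨hσt, hκ1, hκ2⟩ := hv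
    simp only at hσt hκ1 hκ2 ⊢
    rcases Nat.eq_zero_or_pos σ with h0 | hσ0
    · have : F.filter (fun g : ℕ => SieveCond d σ κ g) = ∅ := by
        rw [filter_eq_empty_iff]
        intro g _ h
        have := h.1
        omega
      rw [this]; simp; positivity
    · have hD : Dσ σ ≤ L := le_trans (Finset.le_sup (f := Dσ) (mem_range.mpr hσt)) hLD
      refine hDσ σ hσ0 ((2 * (d : ℤ) + κ) ^ 2) L hD _ ?_
      intro g hg
      rw [mem_filter] at hg
      obtain ⟨-, -, h0, h1⟩ := hg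
      refine ⟨?_, h1⟩
      by_contra hcon
      push Not at hcon
      have h2 : ((2 * (d : ℤ) + 3 * t) ^ 2 + 1) ≤ g := by
        have : ((L : ℕ) : ℤ) ≤ g := by exact_mod_cast hcon
        rw [hL] at this
        push_cast at this
        exact this
      have h3 : (1 : ℤ) ≤ σ := by exact_mod_cast hσ0
      have h4 : (2 * (d : ℤ) + κ) ^ 2 ≤ (2 * (d : ℤ) + 3 * t) ^ 2 := by
        apply sq_le_sq'
        · have : (0 : ℤ) ≤ d := by positivity
          linarith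
        · linarith
      have h6 : (0 : ℤ) ≤ 8 * (g : ℤ) - 1 := by nlinarith [sq_nonneg (2 * (d:ℤ) + 3 * t)]
      have h5 : (8 * (g : ℤ) - 1) ≤ (σ : ℤ) * (8 * (g : ℤ) - 1) := by
        nlinarith
      nlinarith [sq_nonneg (2 * (d:ℤ) + 3 * t)]
  have hsub : F ⊆ ((range t) ×ˢ (Icc (-(3 * t : ℤ)) (3 * t))).biUnion (fun v =>
      F.filter (fun g : ℕ => SieveCond d v.1 v.2 g)) := by
    intro g hg
    obtain ⟨σ, κ, hσ0, hσt, hκ, hM0, hq⟩ := hF g hg
    rw [abs_le] at hκ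
    rw [mem_biUnion]
    refine ⟨(σ, κ), ?_, ?_⟩
    · rw [mem_product, mem_range, mem_Icc]
      exact ⟨hσt, hκ⟩
    · rw [mem_filter]
      exact ⟨hg, hσ0, hM0, hq⟩
  have hcard := le_trans (card_le_card hsub) card_biUnion_le
  have hcardR : (F.card : ℝ) ≤ ∑ v ∈ (range t) ×ˢ (Icc (-(3 * t : ℤ)) (3 * t)), ε' * L := by
    refine le_trans (by exact_mod_cast hcard) (le_trans (le_of_eq (Nat.cast_sum _ _))
      (sum_le_sum hpiece))
  rw [sum_const, card_product, card_range, Int.card_Icc, nsmul_eq_mul] at hcardR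
  have hc2 : (3 * (t : ℤ) + 1 - -(3 * t : ℤ)).toNat = 6 * t + 1 := by omega
  rw [hc2] at hcardR
  push_cast at hcardR
  have hLd : (L : ℝ) ≤ 10 * d ^ 2 := by
    have h0 : 3 * t + 1 ≤ d := by omega
    have h1 : (2 * d + 3 * t) ^ 2 + 1 ≤ 10 * d ^ 2 := by
      have : 2 * d + 3 * t + 1 ≤ 3 * d := by omega
      nlinarith
    rw [hL]; exact_mod_cast h1
  calc (F.card : ℝ) ≤ t * (6 * t + 1) * (ε' * L) := hcardR
    _ ≤ t * (6 * t + 1) * (ε' * (10 * d ^ 2)) := by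
        apply mul_le_mul_of_nonneg_left _ (by positivity)
        exact mul_le_mul_of_nonneg_left hLd hε'0.le
    _ = ε * d ^ 2 := by
        rw [hε']; field_simp

end Pool.Agent.H95.GN
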