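import Mathlib

/-!
# MP_2fc43b_ag, genera of smooth curves in projective space: definitions

Everything is over the complex numbers.  A closed subvariety of `P^n` is given by its
homogeneous prime ideal in `ℂ[x_0, …, x_n]`; degree and genus are read off from the Hilbert
polynomial and smoothness from the Jacobian criterion.
-/

namespace Pool.Agent.H95.GN

open MvPolynomial

/-- the homogeneous coordinate ring of `P^n` -/
abbrev S (n : ℕ) : Type := MvPolynomial (Fin (n + 1)) ℂ

/-- the Hilbert function of a homogeneous ideal: the dimension of the degree `t` part of the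
quotient ring -/
noncomputable def hilb (n : ℕ) (I : Ideal (S n)) (t : ℕ) : ℕ :=
  Module.finrank ℂ
    ((homogeneousSubmodule (Fin (n + 1)) ℂ t).map (Ideal.Quotient.mkₐ ℂ I).toLinearMap)

/-- `I` is the homogeneous ideal of a smooth irreducible nondegenerate curve of degree `d` and
genus `g` in `P^n`: a homogeneous prime ideal with Hilbert polynomial `d t + 1 - g`, containing
no nonzero linear form, such that at every point of the curve the gradients of the elements of
`I` span a space of dimension `n - 1` (Jacobian criterion).  A smooth curve is reduced and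
irreducible, so its arithmetic genus is its genus. -/
structure IsCurve (n d g : ℕ) (I : Ideal (S n)) : Prop where
  homog : ∀ f ∈ I, ∀ t : ℕ, homogeneousComponent t f ∈ I
  prime : I.IsPrime
  hilb_eq : ∃ t₀ : ℕ, ∀ t ≥ t₀, (hilb n I t : ℤ) = d * t + 1 - g
  nondeg : ∀ f ∈ I, f.IsHomogeneous 1 → f = 0
  smooth : ∀ x : Fin (n + 1) → ℂ, x ≠ 0 → (∀ f ∈ I, eval x f = 0) →
    Module.finrank ℂ (Submodule.span ℂ
      {v : Fin (n + 1) → ℂ | ∃ f ∈ I, v = fun i => eval x (pderiv i f)}) = n - 1

/-- there is a smooth irreducible nondegenerate curve of degree `d` and genus `g` in `P^n` -/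
def G (n d g : ℕ) : Prop := ∃ I : Ideal (S n), IsCurve n d g I

/-- `J` is the homogeneous ideal of an integral surface of degree `s` in `P^n`: a homogeneous
prime ideal whose Hilbert polynomial has degree two and leading coefficient `s / 2` -/
structure IsSurface (n s : ℕ) (J : Ideal (S n)) : Prop where
  homog : ∀ f ∈ J, ∀ t : ℕ, homogeneousComponent t f ∈ J
  prime : J.IsPrime
  pos : 0 < s
  hilb_eq : ∃ (a b : ℚ) (t₀ : ℕ), ∀ t ≥ t₀, (hilb n J t : ℚ) = s / 2 * t ^ 2 + a * t + b

/-- the threshold: `n + ⌊n/3⌋ - 1` -/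
def thr (n : ℕ) : ℕ := n + n / 3 - 1

/-- the ternary condition which describes the genera of the one exceptional level for `3 ∣ n`:
the class `x L - (x - z) E_0 - m₁ E_1 - m₂ E_2` on the plane blown up in three points has degree
`d` with respect to `(b + 2) L - b E_0 - E_1 - E_2` and genus `g` -/
def Tern (b d g : ℕ) : Prop :=
  ∃ z x m₁ m₂ : ℤ, 2 * x = d - b * z + (m₁ + m₂) ∧
    (z - 2 * m₁) ^ 2 + (z - 2 * m₂) ^ 2 =
      -(4 * (b : ℤ) + 2) * z ^ 2 + 4 * (d + b - 1) * z - 4 * (2 * g - 2 + d)

/-- the asymptotic answer: `g ≤ d ^ 2 / (2 thr n)`, and for `n` divisible by three in addition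
the genera given by the ternary condition -/
def Answer (n d g : ℕ) : Prop :=
  2 * thr n * g ≤ d ^ 2 ∨ (n % 3 = 0 ∧ 6 ≤ n ∧ Tern (n / 3 - 1) d g)

end Pool.Agent.H95.GN
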