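import Pool.Agent.H95.GN.Facts

/-!
# Curves on the blow up of the plane in `k + 1` points, `3 ≤ k ≤ 5`

`H = (b+2) L - b E_0 - E_1 - … - E_k`, `C = x L - y E_0 - ∑ m_i E_i`.
-/

namespace Pool.Agent.H95.GN

open Finset

/-- the embedding class -/
def hcls (k : ℕ) (b : ℤ) : Cls (k + 1) := (b + 2, Fin.cons b (fun _ => 1))

/-- the curve class -/
def ccls (k : ℕ) (x y : ℤ) (m : Fin k → ℤ) : Cls (k + 1) := (x, Fin.cons y m)

lemma sum_indicator {r : ℕ} (T : Finset (Fin r)) (f : Fin r → ℤ) :
    ∑ i, f i * (if i ∈ T then 1 else 0) = ∑ i ∈ T, f i := by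
  simp [Finset.sum_ite_mem]

/-- the intersection numbers of `c` with the `(-1)`-classes, in terms of bounds for the
coefficients -/
lemma exc_nonneg {k : ℕ} (c : Cls (k + 1)) (x y u : ℤ) (m : Fin k → ℤ)
    (hc : c = ccls k x y m) (hy : 0 ≤ y) (hm0 : ∀ i, 0 ≤ m i) (hmu : ∀ i, m i ≤ u)
    (h1 : y + u ≤ x) (h2 : 2 * u ≤ x) (h3 : y + 4 * u ≤ 2 * x) (h4 : 5 * u ≤ 2 * x) :
    ∀ e, IsExc e → 0 ≤ ip c e := by
  subst hc
  intro e he
  rcases he with ⟨i, rfl⟩ | ⟨i, j, hij, rfl⟩ | ⟨T, hT, rfl⟩
  · unfold ip ccls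
    simp only [mul_zero]
    have : ∑ l, (Fin.cons y m : Fin (k + 1) → ℤ) l * (if l = i then -1 else 0) =
        -(Fin.cons y m : Fin (k + 1) → ℤ) i := by
      rw [Finset.sum_eq_single i]
      · simp
      · intro b _ hb; simp [hb]
      · intro h; exact absurd (mem_univ i) h
    rw [this]
    refine Fin.cases ?_ (fun i => ?_) i
    · simpa using hy
    · have := hm0 i
      simpa using this
  · unfold ip ccls
    have : ∑ l, (Fin.cons y m : Fin (k + 1) → ℤ) l * (if l = i ∨ l = j then 1 else 0) =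
        (Fin.cons y m : Fin (k + 1) → ℤ) i + (Fin.cons y m : Fin (k + 1) → ℤ) j := by
      have h := sum_indicator ({i, j} : Finset (Fin (k + 1))) (Fin.cons y m)
      rw [Finset.sum_pair hij] at h
      rw [← h]
      refine sum_congr rfl fun l _ => ?_
      simp
    rw [this]
    simp only [mul_one]
    revert hij
    refine Fin.cases ?_ (fun i => ?_) i
    · refine Fin.cases ?_ (fun j => ?_) j
      · intro h; exact absurd rfl h
      · intro _
        have := hmu j
        simp only [Fin.cons_zero, Fin.cons_succ]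
        linarith
    · refine Fin.cases ?_ (fun j => ?_) j
      · intro _
        have := hmu i
        simp only [Fin.cons_zero, Fin.cons_succ]
        linarith
      · intro _
        have h5 := hmu i
        have h6 := hmu j
        simp only [Fin.cons_succ]
        linarith
  · unfold ip ccls
    simp only
    rw [sum_indicator T (Fin.cons y m)]
    by_cases h0 : (0 : Fin (k + 1)) ∈ T
    · rw [← Finset.add_sum_erase T _ h0]
      have hcard : (T.erase 0).card = 4 := by rw [card_erase_of_mem h0, hT]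
      have hle : ∑ l ∈ T.erase 0, (Fin.cons y m : Fin (k + 1) → ℤ) l ≤ (T.erase 0).card • u := by
        refine sum_le_card_nsmul _ _ _ fun l hl => ?_
        have hl0 : l ≠ 0 := (mem_erase.mp hl).1
        obtain ⟨j, rfl⟩ := Fin.exists_succ_eq.mpr hl0
        simpa using hmu j
      rw [hcard] at hle
      simp only [Fin.cons_zero]
      rw [nsmul_eq_mul] at hle
      push_cast at hle
      linarith
    · have hle : ∑ l ∈ T, (Fin.cons y m : Fin (k + 1) → ℤ) l ≤ T.card • u := by
        refine sum_le_card_nsmul _ _ _ fun l hl => ?_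
        have hl0 : l ≠ 0 := fun h => h0 (h ▸ hl)
        obtain ⟨j, rfl⟩ := Fin.exists_succ_eq.mpr hl0
        simpa using hmu j
      rw [hT, nsmul_eq_mul] at hle
      push_cast at hle
      linarith

lemma h_pos (k : ℕ) (b : ℤ) (hb : 1 ≤ b) : ∀ e, IsExc e → 0 < ip (hcls k b) e := by
  intro e he
  rcases he with ⟨i, rfl⟩ | ⟨i, j, hij, rfl⟩ | ⟨T, hT, rfl⟩
  · unfold ip hcls
    simp only [mul_zero]
    have : ∑ l, (Fin.cons b (fun _ => 1) : Fin (k + 1) → ℤ) l * (if l = i then -1 else 0) =
        -(Fin.cons b (fun _ => 1) : Fin (k + 1) → ℤ) i := by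
      rw [Finset.sum_eq_single i]
      · simp
      · intro b _ hb; simp [hb]
      · intro h; exact absurd (mem_univ i) h
    rw [this]
    refine Fin.cases ?_ (fun i => ?_) i
    · simp; linarith
    · simp
  · unfold ip hcls
    have : ∑ l, (Fin.cons b (fun _ => 1) : Fin (k + 1) → ℤ) l *
        (if l = i ∨ l = j then 1 else 0) =
        (Fin.cons b (fun _ => 1) : Fin (k + 1) → ℤ) i +
        (Fin.cons b (fun _ => 1) : Fin (k + 1) → ℤ) j := by
      have h := sum_indicator ({i, j} : Finset (Fin (k + 1))) (Fin.cons b (fun _ => 1))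
      rw [Finset.sum_pair hij] at h
      rw [← h]
      refine sum_congr rfl fun l _ => ?_
      simp
    rw [this]
    simp only [mul_one]
    revert hij
    refine Fin.cases ?_ (fun i => ?_) i
    · refine Fin.cases ?_ (fun j => ?_) j
      · intro h; exact absurd rfl h
      · intro _
        simp only [Fin.cons_zero, Fin.cons_succ]
        linarith
    · refine Fin.cases ?_ (fun j => ?_) j
      · intro _
        simp only [Fin.cons_zero, Fin.cons_succ]
        linarith
      · intro _
        simp only [Fin.cons_succ]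
        linarith
  · unfold ip hcls
    simp only
    rw [sum_indicator T (Fin.cons b (fun _ => 1))]
    by_cases h0 : (0 : Fin (k + 1)) ∈ T
    · rw [← Finset.add_sum_erase T _ h0]
      have hcard : (T.erase 0).card = 4 := by rw [card_erase_of_mem h0, hT]
      have hle : ∑ l ∈ T.erase 0, (Fin.cons b (fun _ => 1) : Fin (k + 1) → ℤ) l ≤
          (T.erase 0).card • (1 : ℤ) := by
        refine sum_le_card_nsmul _ _ _ fun l hl => ?_
        have hl0 : l ≠ 0 := (mem_erase.mp hl).1
        obtain ⟨j, rfl⟩ := Fin.exists_succ_eq.mpr hl0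
        simp
      rw [hcard] at hle
      simp only [Fin.cons_zero]
      rw [nsmul_eq_mul] at hle
      push_cast at hle
      linarith
    · have hle : ∑ l ∈ T, (Fin.cons b (fun _ => 1) : Fin (k + 1) → ℤ) l ≤ T.card • (1 : ℤ) := by
        refine sum_le_card_nsmul _ _ _ fun l hl => ?_
        have hl0 : l ≠ 0 := fun h => h0 (h ▸ hl)
        obtain ⟨j, rfl⟩ := Fin.exists_succ_eq.mpr hl0
        simp
      rw [hT, nsmul_eq_mul] at hle
      push_cast at hle
      linarith

/-- From the numerical data of a class to a curve in `P^(3b+5-k)`. -/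
theorem curve_of_class (F : Facts) (k : ℕ) (hk3 : 3 ≤ k) (hk5 : k ≤ 5) (b : ℕ) (hb : 1 ≤ b)
    (d g : ℕ) (z x : ℤ) (w m : Fin k → ℤ)
    (hz : 3 ≤ z) (hw : ∀ i, w i = z - 2 * m i) (hwz : ∀ i, 10 * |w i| ≤ z)
    (hx : 2 * x = d - b * z + ∑ i, m i)
    (hs : (4 * (b : ℤ) + 4 - k) * z ≤ 2 * d)
    (hR : ∑ i, w i ^ 2 = -(4 * (b : ℤ) + 4 - k) * z ^ 2 + 4 * (d + b - 1) * z -
      4 * (2 * g - 2 + d)) :
    G (3 * b + 5 - k) d g := by
  have hb' : (1 : ℤ) ≤ b := by exact_mod_cast hb
  have hk3' : (3 : ℤ) ≤ k := by exact_mod_cast hk3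
  have hk5' : (k : ℤ) ≤ 5 := by exact_mod_cast hk5
  -- bounds for `m`
  have hmlo : ∀ i, 9 * z ≤ 20 * m i := by
    intro i
    have h1 := hwz i
    have h2 := le_abs_self (w i)
    have h3 := hw i
    linarith
  have hmhi : ∀ i, 20 * m i ≤ 11 * z := by
    intro i
    have h1 := hwz i
    have h2 := neg_abs_le (w i)
    have h3 := hw i
    linarith
  have hm0 : ∀ i, 0 ≤ m i := by
    intro i
    have := hmlo i
    linarith
  have hsumlo : 9 * z * k ≤ 20 * ∑ i, m i := by
    have : ∑ _i : Fin k, 9 * z ≤ ∑ i, 20 * m i := sum_le_sum fun i _ => hmlo i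
    rw [sum_const, card_univ, Fintype.card_fin, nsmul_eq_mul, ← mul_sum] at this
    linarith
  have hxlo : 55 * z ≤ 40 * x := by
    nlinarith [hsumlo, hx, hs]
  set y : ℤ := x - z with hy
  -- a common upper bound for the `m i`
  set u : ℤ := 11 * z / 20 with hu
  have hu1 : 20 * u ≤ 11 * z := by
    rw [hu]; exact Int.mul_ediv_self_le (by norm_num)
  have hmu : ∀ i, m i ≤ u := by
    intro i
    rw [hu]
    exact (Int.le_ediv_iff_mul_le (by norm_num)).mpr (by linarith [hmhi i])
  have hexc : ∀ e, IsExc e → 0 ≤ ip (ccls k x y m) e := by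
    refine exc_nonneg _ x y u m rfl ?_ hm0 hmu ?_ ?_ ?_ ?_ <;> linarith
  have hcc : ip (ccls k x y m) (ccls k x y m) = x ^ 2 - y ^ 2 - ∑ i, m i ^ 2 := by
    unfold ip ccls
    simp only
    rw [Fin.sum_univ_succ]
    simp only [Fin.cons_zero, Fin.cons_succ]
    have : ∑ i, m i * m i = ∑ i, m i ^ 2 := sum_congr rfl fun i _ => by ring
    rw [this]; ring
  have hmsq : 400 * ∑ i, m i ^ 2 ≤ 605 * z ^ 2 := by
    have h1 : ∑ i, 400 * m i ^ 2 ≤ ∑ _i : Fin k, 121 * z ^ 2 := by
      refine sum_le_sum fun i _ => ?_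
      have h2 := hmhi i
      have h3 := hm0 i
      nlinarith
    rw [sum_const, card_univ, Fintype.card_fin, nsmul_eq_mul, ← mul_sum] at h1
    nlinarith [sq_nonneg z]
  have hpos : 0 < ip (ccls k x y m) (ccls k x y m) := by
    rw [hcc]
    nlinarith
  have hhc : ip (hcls k (b : ℤ)) (ccls k x y m) = d := by
    unfold ip hcls ccls
    simp only
    rw [Fin.sum_univ_succ]
    simp only [Fin.cons_zero, Fin.cons_succ, one_mul]
    rw [hy]; linarith
  have hhh : ip (hcls k (b : ℤ)) (hcls k b) = 4 * b + 4 - k := by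
    unfold ip hcls
    simp only
    rw [Fin.sum_univ_succ]
    simp only [Fin.cons_zero, Fin.cons_succ, one_mul, sum_const, card_univ, Fintype.card_fin,
      nsmul_eq_mul]
    ring
  have hKh : ip (can (k + 1)) (hcls k (b : ℤ)) = -2 * b - 6 + k := by
    unfold ip hcls can
    simp only
    rw [Fin.sum_univ_succ]
    simp only [Fin.cons_zero, Fin.cons_succ, sum_const, card_univ, Fintype.card_fin,
      nsmul_eq_mul]
    ring
  have hKc : ip (can (k + 1)) (ccls k x y m) = -3 * x + y + ∑ i, m i := by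
    unfold ip ccls can
    simp only
    rw [Fin.sum_univ_succ]
    simp only [Fin.cons_zero, Fin.cons_succ]
    have : ∑ i, -1 * m i = -∑ i, m i := by
      rw [← mul_sum]; ring
    rw [this]; ring
  refine F.delPezzo (k + 1) (by omega) (by omega) (hcls k b) (ccls k x y m)
    (h_pos k b hb') hexc hpos ⟨0, ?_⟩ (3 * b + 5 - k) d g ?_ ?_ ?_
  · unfold ip hcls ccls
    have : ∑ l, ((b + 2 - x, (Fin.cons (b : ℤ) (fun _ => 1) - Fin.cons y m)) :
        Cls (k + 1)).2 l * (if l = 0 then 1 else 0) = b - y := by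
      rw [Finset.sum_eq_single 0]
      · simp
      · intro b _ hb; simp [hb]
      · intro h; exact absurd (mem_univ _) h
    simp only [Prod.mk_sub_mk, mul_one] at this ⊢
    rw [this, hy]; linarith
  · rw [hhh, hKh]
    have : ((3 * b + 5 - k : ℕ) : ℤ) = 3 * b + 5 - k := by
      have : k ≤ 3 * b + 5 := by omega
      push_cast [Nat.cast_sub this]; ring
    rw [this]; ring
  · rw [hhc]
  · rw [hcc, hKc]
    have hwsq : ∑ i, w i ^ 2 = k * z ^ 2 - 4 * z * ∑ i, m i + 4 * ∑ i, m i ^ 2 := by
      have : ∀ i, w i ^ 2 = z ^ 2 - 4 * z * m i + 4 * m i ^ 2 := by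
        intro i; rw [hw i]; ring
      simp only [this]
      rw [sum_add_distrib, sum_sub_distrib, sum_const, card_univ, Fintype.card_fin,
        nsmul_eq_mul, ← mul_sum, ← mul_sum]
    have hd : (d : ℤ) = b * z + 2 * x - ∑ i, m i := by linarith
    rw [hwsq, hd] at hR
    rw [hy]
    nlinarith [hR]

end Pool.Agent.H95.GN
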