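import Pool.Agent.H95.GN.Dp

/-!
# Existence: every genus up to `d ^ 2 / (2 thr) - C d`
-/

namespace Pool.Agent.H95.GN

open Finset

/-- the parabola -/
def fpar (s b d g z : ℤ) : ℤ := -s * z ^ 2 + 4 * (d + b - 1) * z - 4 * (2 * g - 2 + d)

lemma choose_z (s b N : ℤ) (hs : 1 ≤ s) (hb : 1 ≤ b) (hN : 1 ≤ N) :
    ∃ C : ℕ, ∀ d : ℕ, C ≤ d → ∀ g : ℕ, 2 * s * g + C * d ≤ (d : ℤ) ^ 2 → (d : ℤ) ^ 2 ≤ N * g →
      ∀ ε : ℕ, ε < 2 → ∃ z : ℕ, z % 2 = ε ∧ (3 : ℤ) ≤ z ∧ s * z ≤ 2 * d ∧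
        0 ≤ fpar s b d g z ∧ 100 * fpar s b d g z ≤ (z : ℤ) ^ 2 := by
  obtain ⟨C, hC⟩ : ∃ C : ℕ, (C : ℤ) = 1600 * N ^ 2 + 4 * s ^ 2 + 4 * s + b + 100 :=
    ⟨(1600 * N ^ 2 + 4 * s ^ 2 + 4 * s + b + 100).toNat, Int.toNat_of_nonneg (by positivity)⟩
  refine ⟨C, fun d hd g hg hNg ε hε => ?_⟩
  have hd' : (C : ℤ) ≤ d := by exact_mod_cast hd
  rw [hC] at hd'
  have hs0 : 0 ≤ s ^ 2 := sq_nonneg s
  have hN2 : N ≤ N ^ 2 := by nlinarith
  have hdb : b ≤ d := by nlinarith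
  have hd1 : (100 : ℤ) ≤ d := by nlinarith
  have hdN : 1600 * N ^ 2 ≤ (d : ℤ) := by nlinarith
  have hds : 4 * s ≤ (d : ℤ) := by nlinarith
  -- the point near `2 d / s`
  obtain ⟨z1, hz1a, hz1b, hz1c⟩ : ∃ z1 : ℕ, z1 % 2 = ε ∧ s * z1 ≤ 2 * d ∧
      2 * (d : ℤ) - 2 * s < s * z1 := by
    obtain ⟨S, rfl⟩ : ∃ S : ℕ, s = S := ⟨s.toNat, (Int.toNat_of_nonneg (by linarith)).symm⟩
    have hS : 1 ≤ S := by exact_mod_cast hs
    have hdS : 4 * S ≤ d := by exact_mod_cast hds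
    set q := 2 * d / S with hq
    have hq1 : S * q ≤ 2 * d := Nat.mul_div_le _ _
    have hq2 : 2 * d < S * q + S := by
      have := Nat.lt_mul_div_succ (2 * d) (show 0 < S by omega)
      rw [Nat.mul_add, mul_one] at this
      exact this
    have hq0 : 1 ≤ q := by
      by_contra h
      have h0 : q = 0 := Nat.lt_one_iff.mp (not_le.mp h)
      have h00 : S * q = 0 := by rw [h0, mul_zero]
      omega
    by_cases hp : q % 2 = ε
    · refine ⟨q, hp, by exact_mod_cast hq1, ?_⟩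
      have : 2 * d < S * q + 2 * S := by omega
      have h2 : (2 * d : ℤ) < S * q + 2 * S := by exact_mod_cast this
      linarith
    · refine ⟨q - 1, by omega, ?_, ?_⟩
      · have : S * (q - 1) ≤ 2 * d := le_trans (Nat.mul_le_mul_left _ (Nat.sub_le _ _)) hq1
        exact_mod_cast this
      · have h1 : S * (q - 1) + S = S * q := by
          rw [← Nat.mul_succ]; congr 1; omega
        have : 2 * d < S * (q - 1) + 2 * S := by omega
        have h2 : (2 * d : ℤ) < S * ((q - 1 : ℕ) : ℤ) + 2 * S := by exact_mod_cast this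
        linarith
  have hz1f : 0 ≤ fpar s b d g z1 := by
    have key : 0 ≤ s * fpar s b d g z1 := by
      have h1 : s * fpar s b d g z1 = 4 * (d : ℤ) ^ 2 - (2 * d - s * z1) ^ 2 +
          4 * (b - 1) * (s * z1) - 4 * s * (2 * g - 2 + d) := by
        unfold fpar; ring
      rw [h1]
      have h2 : (2 * (d : ℤ) - s * z1) ^ 2 ≤ 4 * s ^ 2 := by nlinarith
      have h3 : 0 ≤ (b - 1) * (s * z1) := by
        apply mul_nonneg (by linarith)
        linarith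
      have h4 : (C : ℤ) * d = (1600 * N ^ 2 + 4 * s ^ 2 + 4 * s + b + 100) * d := by rw [hC]
      have h5 : 4 * s ^ 2 + 4 * s * d ≤ 4 * ((C : ℤ) * d) := by
        rw [h4]
        nlinarith [mul_nonneg hs0 (show (0:ℤ) ≤ d by linarith),
          mul_nonneg (sq_nonneg N) (show (0:ℤ) ≤ d by linarith)]
      nlinarith
    by_contra hneg
    push Not at hneg
    nlinarith
  -- the least point with the right parity
  classical
  have hex : ∃ z : ℕ, z % 2 = ε ∧ 0 ≤ fpar s b d g z := ⟨z1, hz1a, hz1f⟩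
  set z := Nat.find hex with hz
  obtain ⟨hza, hzf⟩ := Nat.find_spec hex
  rw [← hz] at hza hzf
  have hzz1 : z ≤ z1 := Nat.find_min' hex ⟨hz1a, hz1f⟩
  have hszd : s * z ≤ 2 * d := by
    have : (z : ℤ) ≤ z1 := by exact_mod_cast hzz1
    nlinarith
  -- lower bound for z
  have hg0 : (0 : ℤ) ≤ g := by positivity
  have hz0 : (0 : ℤ) ≤ z := by positivity
  have h1 : (g : ℤ) ≤ d * z := by
    unfold fpar at hzf
    have h2 : 4 * (2 * (g : ℤ) - 2 + d) ≤ 4 * (d + b - 1) * z := by nlinarith [sq_nonneg (z:ℤ)]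
    have h3 : (d + b - 1) * (z : ℤ) ≤ 2 * d * z := by nlinarith
    nlinarith
  have h2 : (d : ℤ) ≤ N * z := by
    have h3 : (d : ℤ) * d ≤ d * (N * z) := by nlinarith
    exact le_of_mul_le_mul_left h3 (by linarith)
  have hNz2 : 1600 * (d : ℤ) ≤ (z : ℤ) ^ 2 := by
    have h3 : (d : ℤ) ^ 2 ≤ N ^ 2 * (z : ℤ) ^ 2 := by
      have : (d : ℤ) ^ 2 ≤ (N * z) ^ 2 := pow_le_pow_left₀ (by linarith) h2 2
      rwa [mul_pow] at this
    have h4 : 1600 * N ^ 2 * (d : ℤ) ≤ N ^ 2 * (z : ℤ) ^ 2 := by nlinarith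
    have h5 : N ^ 2 * (1600 * (d : ℤ)) ≤ N ^ 2 * (z : ℤ) ^ 2 := by linarith
    exact le_of_mul_le_mul_left h5 (by positivity)
  have hz3 : (3 : ℤ) ≤ z := by
    by_contra h
    push Not at h
    nlinarith
  refine ⟨z, hza, hz3, hszd, hzf, ?_⟩
  -- upper bound for f
  have hzN : 3 ≤ z := by exact_mod_cast hz3
  have hprev : fpar s b d g ((z - 2 : ℕ) : ℤ) < 0 := by
    have hlt : z - 2 < z := by omega
    have := Nat.find_min hex (m := z - 2) (by rw [← hz]; exact hlt)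
    push Not at this
    exact this (by omega)
  have hcast : ((z - 2 : ℕ) : ℤ) = z - 2 := by
    rw [Nat.cast_sub (by omega)]; norm_num
  rw [hcast] at hprev
  have hdiff : fpar s b d g z = fpar s b d g ((z : ℤ) - 2) - s * (4 * z - 4) +
      8 * (d + b - 1) := by
    unfold fpar; ring
  have : fpar s b d g z ≤ 16 * d := by
    rw [hdiff]
    nlinarith
  linarith

lemma abs_bound {w z f : ℤ} (hz : 0 ≤ z) (h1 : w ^ 2 ≤ f) (h2 : 100 * f ≤ z ^ 2) :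
    10 * |w| ≤ z := by
  have h : (10 * |w|) ^ 2 ≤ z ^ 2 := by
    rw [mul_pow, sq_abs]; linarith
  exact abs_le_of_sq_le_sq' h hz |>.2

lemma sq_parity (v : ℤ) : ∃ t, v ^ 2 = v + 2 * t := by
  obtain ⟨t, ht⟩ := Int.even_mul_pred_self v
  exact ⟨t, by nlinarith⟩

/-- the four square case -/
lemma case_even (F : Facts) (k b : ℕ) (hk4 : k = 4 ∨ k = 5) (hb : 1 ≤ b) (d g z : ℕ)
    (hz2 : z % 2 = 0) (hz3 : (3 : ℤ) ≤ z) (hsz : (4 * (b : ℤ) + 4 - k) * z ≤ 2 * d)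
    (hf0 : 0 ≤ fpar (4 * (b : ℤ) + 4 - k) b d g z)
    (hf1 : 100 * fpar (4 * (b : ℤ) + 4 - k) b d g z ≤ (z : ℤ) ^ 2) :
    G (3 * b + 5 - k) d g := by
  obtain ⟨y, hy⟩ : ∃ y : ℕ, z = 2 * y := ⟨z / 2, by omega⟩
  have hzy : (z : ℤ) = 2 * y := by exact_mod_cast hy
  set Q : ℤ := -(4 * (b : ℤ) + 4 - k) * y ^ 2 + 2 * (d + b - 1) * y - (2 * g - 2 + d) with hQ
  have hfQ : fpar (4 * (b : ℤ) + 4 - k) b d g z = 4 * Q := by
    unfold fpar; rw [hzy, hQ]; ring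
  have hQ0 : 0 ≤ Q := by rw [hfQ] at hf0; linarith
  obtain ⟨a1, a2, a3, a4, h4⟩ := Nat.sum_four_squares Q.toNat
  have h4' : (a1 : ℤ) ^ 2 + a2 ^ 2 + a3 ^ 2 + a4 ^ 2 = Q := by
    have : ((a1 ^ 2 + a2 ^ 2 + a3 ^ 2 + a4 ^ 2 : ℕ) : ℤ) = (Q.toNat : ℤ) := by rw [h4]
    rw [Int.toNat_of_nonneg hQ0] at this
    push_cast at this
    exact this
  obtain ⟨t1, ht1⟩ := sq_parity (a1 : ℤ)
  obtain ⟨t2, ht2⟩ := sq_parity (a2 : ℤ)
  obtain ⟨t3, ht3⟩ := sq_parity (a3 : ℤ)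
  obtain ⟨t4, ht4⟩ := sq_parity (a4 : ℤ)
  obtain ⟨ty, hty⟩ := sq_parity (y : ℤ)
  have hz0 : (0 : ℤ) ≤ z := by positivity
  rw [hfQ] at hf1
  have hw : ∀ a : ℤ, a ^ 2 ≤ Q → 10 * |2 * a| ≤ z := fun a ha =>
    abs_bound hz0 (f := 4 * Q) (by nlinarith) (by linarith)
  have hw1 := hw a1 (by nlinarith [sq_nonneg (a2 : ℤ), sq_nonneg (a3 : ℤ), sq_nonneg (a4 : ℤ)])
  have hw2 := hw a2 (by nlinarith [sq_nonneg (a1 : ℤ), sq_nonneg (a3 : ℤ), sq_nonneg (a4 : ℤ)])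
  have hw3 := hw a3 (by nlinarith [sq_nonneg (a2 : ℤ), sq_nonneg (a1 : ℤ), sq_nonneg (a4 : ℤ)])
  have hw4 := hw a4 (by nlinarith [sq_nonneg (a2 : ℤ), sq_nonneg (a3 : ℤ), sq_nonneg (a1 : ℤ)])
  rcases hk4 with rfl | rfl
  · -- k = 4
    have hx : ∃ x : ℤ, 2 * x = d - b * z + ((y - a1) + (y - a2) + (y - a3) + (y - a4)) := by
      refine ⟨d - b * y + 2 * y + (t1 + t2 + t3 + t4) + 2 * (b : ℤ) * y ^ 2 - (d + b - 1) * y +
        (g - 1), ?_⟩
      rw [hzy]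
      push_cast at hQ
      nlinarith [h4', ht1, ht2, ht3, ht4, hQ]
    obtain ⟨x, hx⟩ := hx
    refine curve_of_class F 4 (by norm_num) (by norm_num) b hb d g z x
      ![2 * (a1 : ℤ), 2 * a2, 2 * a3, 2 * a4] ![(y : ℤ) - a1, y - a2, y - a3, y - a4] hz3
      ?_ ?_ ?_ hsz ?_
    · intro i
      rw [hzy]
      fin_cases i <;> simp <;> ring
    · intro i
      fin_cases i
      · simpa using hw1
      · simpa using hw2
      · simpa using hw3
      · simpa using hw4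
    · rw [hx, Fin.sum_univ_four]
      simp
    · rw [Fin.sum_univ_four]
      simp only [Matrix.cons_val_zero, Matrix.cons_val_one, Matrix.cons_val_two,
        Matrix.cons_val_three, Matrix.head_cons, Matrix.tail_cons]
      have := hfQ
      unfold fpar at this
      rw [this, ← h4']; ring
  · -- k = 5
    have hx : ∃ x : ℤ, 2 * x =
        d - b * z + ((y - a1) + (y - a2) + (y - a3) + (y - a4) + y) := by
      refine ⟨d - b * y + 2 * y + (t1 + t2 + t3 + t4) + 2 * (b : ℤ) * y ^ 2 - ty -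
        (d + b - 1) * y + (g - 1), ?_⟩
      rw [hzy]
      push_cast at hQ
      nlinarith [h4', ht1, ht2, ht3, ht4, hQ, hty]
    obtain ⟨x, hx⟩ := hx
    refine curve_of_class F 5 (by norm_num) (by norm_num) b hb d g z x
      ![2 * (a1 : ℤ), 2 * a2, 2 * a3, 2 * a4, 0] ![(y : ℤ) - a1, y - a2, y - a3, y - a4, y] hz3
      ?_ ?_ ?_ hsz ?_
    · intro i
      rw [hzy]
      fin_cases i <;> simp <;> ring
    · intro i
      fin_cases i
      · simpa using hw1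
      · simpa using hw2
      · simpa using hw3
      · simpa using hw4
      · simp
    · rw [hx, Fin.sum_univ_five]
      simp
    · rw [Fin.sum_univ_five]
      simp only [Matrix.cons_val_zero, Matrix.cons_val_one, Matrix.cons_val_two,
        Matrix.cons_val_three, Matrix.head_cons, Matrix.tail_cons, Matrix.cons_val]
      have := hfQ
      unfold fpar at this
      rw [this, ← h4']; ring

/-- the three square case -/
lemma case_odd (F : Facts) (ts : ∀ m : ℕ, ∃ a b c : ℕ, 8 * m + 3 = a ^ 2 + b ^ 2 + c ^ 2)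
    (b : ℕ) (hb : 1 ≤ b) (d g z : ℕ)
    (hz2 : z % 2 = 1) (hz3 : (3 : ℤ) ≤ z) (hsz : (4 * (b : ℤ) + 1) * z ≤ 2 * d)
    (hf0 : 0 ≤ fpar (4 * (b : ℤ) + 1) b d g z)
    (hf1 : 100 * fpar (4 * (b : ℤ) + 1) b d g z ≤ (z : ℤ) ^ 2) :
    G (3 * b + 2) d g := by
  obtain ⟨y, hy⟩ : ∃ y : ℕ, z = 2 * y + 1 := ⟨z / 2, by omega⟩
  have hzy : (z : ℤ) = 2 * y + 1 := by exact_mod_cast hy
  obtain ⟨ty, hty⟩ := sq_parity (y : ℤ)
  -- the value is `3 mod 8`
  obtain ⟨M, hM⟩ : ∃ M : ℤ, fpar (4 * (b : ℤ) + 1) b d g z = 8 * M + 3 := by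
    refine ⟨-(4 * (b : ℤ) + 1) * (y + ty) + (d + b - 1) * y - g, ?_⟩
    unfold fpar
    rw [hzy]
    have : (y : ℤ) ^ 2 + y = 2 * (y + ty) := by rw [hty]; ring
    have h2 : (2 * (y : ℤ) + 1) ^ 2 = 8 * (y + ty) + 1 := by
      have : (2 * (y : ℤ) + 1) ^ 2 = 4 * (y ^ 2 + y) + 1 := by ring
      rw [this, ‹(y : ℤ) ^ 2 + y = 2 * (y + ty)›]; ring
    rw [h2]; ring
  have hM0 : 0 ≤ M := by omega
  obtain ⟨a1, a2, a3, h3⟩ := ts M.toNat
  have h3' : (a1 : ℤ) ^ 2 + a2 ^ 2 + a3 ^ 2 = 8 * M + 3 := by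
    have : ((8 * M.toNat + 3 : ℕ) : ℤ) = ((a1 ^ 2 + a2 ^ 2 + a3 ^ 2 : ℕ) : ℤ) := by rw [h3]
    push_cast at this
    rw [Int.toNat_of_nonneg hM0] at this
    linarith
  -- all odd
  have hodd : a1 % 2 = 1 ∧ a2 % 2 = 1 ∧ a3 % 2 = 1 := by
    have h5 : (a1 ^ 2 + a2 ^ 2 + a3 ^ 2) % 8 = 3 := by omega
    have h6 : ∀ a : ℕ, a % 2 = 0 → a ^ 2 % 8 = 0 ∨ a ^ 2 % 8 = 4 := by
      intro a ha
      have : a % 8 = 0 ∨ a % 8 = 2 ∨ a % 8 = 4 ∨ a % 8 = 6 := by omega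
      rcases this with h | h | h | h <;> simp [Nat.pow_mod, h]
    have h7 : ∀ a : ℕ, a % 2 = 1 → a ^ 2 % 8 = 1 := by
      intro a ha
      have : a % 8 = 1 ∨ a % 8 = 3 ∨ a % 8 = 5 ∨ a % 8 = 7 := by omega
      rcases this with h | h | h | h <;> simp [Nat.pow_mod, h]
    rcases Nat.mod_two_eq_zero_or_one a1 with p1 | p1 <;>
    rcases Nat.mod_two_eq_zero_or_one a2 with p2 | p2 <;>
    rcases Nat.mod_two_eq_zero_or_one a3 with p3 | p3
    · have := h6 _ p1; have := h6 _ p2; have := h6 _ p3; omega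
    · have := h6 _ p1; have := h6 _ p2; have := h7 _ p3; omega
    · have := h6 _ p1; have := h7 _ p2; have := h6 _ p3; omega
    · have := h6 _ p1; have := h7 _ p2; have := h7 _ p3; omega
    · have := h7 _ p1; have := h6 _ p2; have := h6 _ p3; omega
    · have := h7 _ p1; have := h6 _ p2; have := h7 _ p3; omega
    · have := h7 _ p1; have := h7 _ p2; have := h6 _ p3; omega
    · exact ⟨p1, p2, p3⟩
  obtain ⟨o1, o2, o3⟩ := hodd
  obtain ⟨c1, hc1⟩ : ∃ c : ℤ, (a1 : ℤ) = 2 * c + 1 := ⟨a1 / 2, by omega⟩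
  obtain ⟨c2, hc2⟩ : ∃ c : ℤ, (a2 : ℤ) = 2 * c + 1 := ⟨a2 / 2, by omega⟩
  obtain ⟨c3, hc3⟩ : ∃ c : ℤ, (a3 : ℤ) = 2 * c + 1 := ⟨a3 / 2, by omega⟩
  have hz0 : (0 : ℤ) ≤ z := by positivity
  rw [hM] at hf1
  have hw : ∀ a : ℤ, a ^ 2 ≤ 8 * M + 3 → 10 * |a| ≤ z := fun a ha => abs_bound hz0 ha hf1
  have hw1 := hw a1 (by nlinarith [sq_nonneg (a2 : ℤ), sq_nonneg (a3 : ℤ)])
  have hw2 := hw a2 (by nlinarith [sq_nonneg (a1 : ℤ), sq_nonneg (a3 : ℤ)])
  have hw3 := hw a3 (by nlinarith [sq_nonneg (a2 : ℤ), sq_nonneg (a1 : ℤ)])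
  -- both signs of the first square
  have main : ∀ e1 : ℤ, (e1 = c1 ∨ e1 = -c1 - 1) →
      (∃ x : ℤ, 2 * x = d - b * z + ((y - e1) + (y - c2) + (y - c3))) → G (3 * b + 2) d g := by
    intro e1 he1 hx
    obtain ⟨x, hx⟩ := hx
    have hsq : (2 * e1 + 1) ^ 2 = (a1 : ℤ) ^ 2 := by
      rcases he1 with rfl | rfl
      · rw [hc1]
      · rw [hc1]; ring
    have hwe : 10 * |2 * e1 + 1| ≤ z := by
      have := hw (2 * e1 + 1) (by rw [hsq]; nlinarith [sq_nonneg (a2 : ℤ), sq_nonneg (a3 : ℤ)])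
      exact this
    have h := curve_of_class F 3 (by norm_num) (by norm_num) b hb d g z x
      ![2 * e1 + 1, 2 * c2 + 1, 2 * c3 + 1] ![(y : ℤ) - e1, y - c2, y - c3] hz3
      ?_ ?_ ?_ ?_ ?_
    · have : 3 * b + 5 - 3 = 3 * b + 2 := by omega
      rwa [this] at h
    · intro i
      rw [hzy]
      fin_cases i <;> simp <;> ring
    · intro i
      fin_cases i
      · simpa using hwe
      · rw [hc2] at hw2; simpa using hw2
      · rw [hc3] at hw3; simpa using hw3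
    · rw [hx, Fin.sum_univ_three]
      simp
    · push_cast
      have : (4 * (b : ℤ) + 4 - 3) = 4 * b + 1 := by ring
      rw [this]; exact hsz
    · rw [Fin.sum_univ_three]
      simp only [Matrix.cons_val_zero, Matrix.cons_val_one, Matrix.cons_val_two,
        Matrix.head_cons, Matrix.tail_cons]
      have h5 := hM
      unfold fpar at h5
      push_cast
      have : (4 * (b : ℤ) + 4 - 3) = 4 * b + 1 := by ring
      rw [this, h5, ← h3', hsq, hc2, hc3]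
  rcases Int.even_or_odd (d - b * z + ((y - c1) + (y - c2) + (y - c3)) : ℤ) with he | ho
  · obtain ⟨x, hx⟩ := he
    exact main c1 (Or.inl rfl) ⟨x, by rw [hx]; ring⟩
  · obtain ⟨x, hx⟩ := ho
    refine main (-c1 - 1) (Or.inr rfl) ⟨x + c1 + 1, ?_⟩
    linarith

/-- **Existence.** -/
theorem exist (F : Facts) (ts : ∀ m : ℕ, ∃ a b c : ℕ, 8 * m + 3 = a ^ 2 + b ^ 2 + c ^ 2)
    (n : ℕ) (hn : 3 ≤ n) :
    ∃ C : ℕ, ∀ d ≥ C, ∀ g, 2 * thr n * g + C * d ≤ d ^ 2 → G n d g := by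
  obtain ⟨b, k, hb, hk3, hk5, hnk⟩ : ∃ b k : ℕ, 1 ≤ b ∧ 3 ≤ k ∧ k ≤ 5 ∧ n = 3 * b + 5 - k :=
    ⟨n / 3, 5 - n % 3, by omega, by omega, by omega, by omega⟩
  have hthr : (thr n : ℤ) = 4 * (b : ℤ) + 4 - k := by
    unfold thr
    have h1 : n / 3 = b := by omega
    rw [h1]
    have h2 : n + b - 1 + k = 4 * b + 4 := by omega
    have : ((n + b - 1 : ℕ) : ℤ) + k = 4 * b + 4 := by exact_mod_cast h2
    linarith
  obtain ⟨C, hC⟩ := choose_z (4 * (b : ℤ) + 4 - k) b (4 * (n - 1)) (by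
      have : (k : ℤ) ≤ 5 := by exact_mod_cast hk5
      have : (1 : ℤ) ≤ b := by exact_mod_cast hb
      linarith) (by exact_mod_cast hb) (by
      have : (3 : ℤ) ≤ n := by exact_mod_cast hn
      linarith)
  refine ⟨max C (2 * n), fun d hd g hg => ?_⟩
  have hdC : C ≤ d := le_trans (le_max_left _ _) hd
  have hdn : 2 * n ≤ d := le_trans (le_max_right _ _) hd
  by_cases hsmall : 4 * (n - 1) * g < d ^ 2
  · exact F.knutsen n d g hn hdn hsmall
  · push Not at hsmall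
    have hN : (d : ℤ) ^ 2 ≤ 4 * ((n : ℤ) - 1) * g := by
      have : ((d ^ 2 : ℕ) : ℤ) ≤ ((4 * (n - 1) * g : ℕ) : ℤ) := by exact_mod_cast hsmall
      push_cast [Nat.cast_sub (show 1 ≤ n by omega)] at this
      exact this
    have hg' : 2 * (4 * (b : ℤ) + 4 - k) * g + C * d ≤ (d : ℤ) ^ 2 := by
      have h1 : 2 * thr n * g + C * d ≤ d ^ 2 := by
        refine le_trans ?_ hg
        have := Nat.mul_le_mul_right d (le_max_left C (2 * n))
        omega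
      have h2 : 2 * (thr n : ℤ) * g + C * d ≤ (d : ℤ) ^ 2 := by exact_mod_cast h1
      rwa [hthr] at h2
    have hcase : k = 3 ∨ (k = 4 ∨ k = 5) := by omega
    rcases hcase with rfl | hk
    · obtain ⟨z, h1, h2, h3, h4, h5⟩ := hC d hdC g hg' hN 1 (by norm_num)
      have e : (4 * (b : ℤ) + 4 - (3 : ℕ)) = 4 * b + 1 := by push_cast; ring
      rw [e] at h3 h4 h5
      have := case_odd F ts b hb d g z h1 h2 h3 h4 h5
      have e2 : n = 3 * b + 2 := by omega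
      rwa [e2]
    · obtain ⟨z, h1, h2, h3, h4, h5⟩ := hC d hdC g hg' hN 0 (by norm_num)
      have := case_even F k b hk hb d g z h1 h2 h3 h4 h5
      rwa [hnk]

end Pool.Agent.H95.GN
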