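import Pool.Agent.H95.GN.Defs

/-!
# The published theorems which are used

`Surfaces`: smooth projective complex surfaces with their Picard groups, intersection numbers,
canonical classes, nef classes, and the classical theorems about them.
`Facts`: the theorems which link curves and surfaces in `P^n` with them.
-/

namespace Pool.Agent.H95.GN

/-- Smooth projective complex surfaces and the classical theorems of surface theory that are
used below. -/
structure Surfaces where
  /-- smooth projective complex surfaces (irreducible) -/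
  X : Type
  /-- the Picard group -/
  Pic : X → Type
  grp : ∀ x, AddCommGroup (Pic x)
  /-- the intersection number of two line bundles -/
  dot : ∀ x, Pic x → Pic x → ℤ
  dot_comm : ∀ x a b, dot x a b = dot x b a
  dot_add : ∀ x a b c, dot x (a + b) c = dot x a c + dot x b c
  /-- the canonical class -/
  K : ∀ x, Pic x
  /-- dimension of the space of global sections -/
  h0 : ∀ x, Pic x → ℕ
  /-- base point free (globally generated) line bundles -/
  Free : ∀ x, Set (Pic x)
  /-- nef line bundles -/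
  Nef : ∀ x, Set (Pic x)
  /-- classes of `(-1)`-curves -/
  Exc : ∀ x, Set (Pic x)
  /-- classes of integral curves -/
  Cur : ∀ x, Set (Pic x)
  /-- a base point free line bundle is nef -/
  free_nef : ∀ x, ∀ D ∈ Free x, D ∈ Nef x
  /-- a nef line bundle has non-negative degree on every curve (definition) -/
  nef_cur : ∀ x, ∀ D ∈ Nef x, ∀ C ∈ Cur x, 0 ≤ dot x D C
  /-- the intersection number of two nef line bundles is non-negative (Kleiman) -/
  nef_mul : ∀ x, ∀ D ∈ Nef x, ∀ D' ∈ Nef x, 0 ≤ dot x D D'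
  /-- the Hodge index theorem -/
  hodge : ∀ x H D, 0 < dot x H H → dot x D H = 0 → dot x D D ≤ 0
  /-- Bertini, adjunction, Riemann-Roch and Clifford: if `H` is base point free with `H ^ 2 > 0`
  then a general member `D` of `|H|` is a smooth connected curve, of genus `p` say,
  `2 p - 2 = H (H + K)`, and `h⁰(H) ≤ 1 + h⁰(D, H|D)`; either `H|D` is special, and
  `2 (h⁰(D, H|D) - 1) ≤ H ^ 2` (Clifford), or `h⁰(D, H|D) = H ^ 2 + 1 - p` (Riemann-Roch). -/
  clifford : ∀ x, ∀ H ∈ Free x, 0 < dot x H H → ∃ p : ℕ,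
    2 * (p : ℤ) - 2 = dot x H H + dot x (K x) H ∧
    (2 * ((h0 x H : ℤ) - 2) ≤ dot x H H ∨ (h0 x H : ℤ) - 1 ≤ dot x H H + 1 - p)
  /-- The adjunction theorem (Mori 1982; Sommese; Van de Ven; Reider): `H` nef and big, with
  `H · E > 0` for all `(-1)`-curves `E`.  Then `K + H` is nef, or the surface is the projective
  plane and `H` is a line or a conic, or it is a `P¹`-bundle over a smooth curve with fibre `F`
  and `H · F = 1`; in the last case every line bundle is numerically `a H + b F`. -/
  adjunction : ∀ x, ∀ H ∈ Nef x, 0 < dot x H H → (∀ E ∈ Exc x, 0 < dot x H E) →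
    K x + H ∈ Nef x ∨
    (∃ L : Pic x, dot x L L = 1 ∧ K x = (-3 : ℤ) • L ∧ (∀ C, ∃ c : ℤ, C = c • L)) ∨
    (∃ F ∈ Nef x, dot x H F = 1 ∧ dot x F F = 0 ∧ dot x (K x) F = -2 ∧
      ∀ C, ∃ a b : ℤ, ∀ D, dot x C D = a * dot x H D + b * dot x F D)
  /-- Adjunction theory, conic bundles: `H` as in `adjunction` with `K + H` nef and
  `(K + H) ^ 2 = 0` on a surface with `K ^ 2 ≥ 6` (so a rational surface, see `rational`).  Then
  `K + H` is base point free, and it is trivial or a multiple of the fibre class `F` of a conic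
  bundle, `F ^ 2 = 0`, `K · F = -2`. -/
  conic : ∀ x, ∀ H ∈ Nef x, 0 < dot x H H → (∀ E ∈ Exc x, 0 < dot x H E) →
    dot x (K x) H < 0 → 6 ≤ dot x (K x) (K x) → K x + H ∈ Nef x →
    dot x (K x + H) (K x + H) = 0 →
    K x + H = 0 ∨ ∃ (F : Pic x) (m : ℤ), dot x F F = 0 ∧ dot x (K x) F = -2 ∧ K x + H = m • F
  /-- Castelnuovo, Enriques: if `K · H < 0` for a nef `H` then the surface is birationally ruled;
  a surface which is birationally ruled over a curve of genus `q ≥ 1` has `K ^ 2 ≤ 0`, and a
  rational surface with `K ^ 2 ≥ 6` is the projective plane, a Hirzebruch surface `F_e`, or the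
  blow up of a Hirzebruch surface in one or two points.  For `K ^ 2 = 6` the Picard group has a
  basis `L, E_0, E_1, E_2` with the intersection form of the blow up of the plane in three points
  and `K = -3 L + E_0 + E_1 + E_2` (Nagata; `F_e` blown up in a point is numerically `F_1` blown
  up in a point, by elementary transformations). -/
  rational : ∀ x, ∀ H ∈ Nef x, dot x (K x) H < 0 → 6 ≤ dot x (K x) (K x) →
    (dot x (K x) (K x) = 9 ∧ ∃ L : Pic x, dot x L L = 1 ∧ K x = (-3 : ℤ) • L ∧
      (∀ C, ∃ c : ℤ, C = c • L)) ∨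
    (dot x (K x) (K x) = 8 ∧ ∃ (e : ℤ) (σ f : Pic x), dot x σ σ = -e ∧ dot x σ f = 1 ∧
      dot x f f = 0 ∧ ∀ C, ∃ a b : ℤ, C = a • σ + b • f) ∨
    (dot x (K x) (K x) = 7 ∧ ∃ (e : ℤ) (σ f E : Pic x), dot x σ σ = -e ∧ dot x σ f = 1 ∧
      dot x f f = 0 ∧ dot x E E = -1 ∧ dot x E σ = 0 ∧ dot x E f = 0 ∧
      ∀ C, ∃ a b c : ℤ, C = a • σ + b • f + c • E) ∨
    (dot x (K x) (K x) = 6 ∧ ∃ L E₀ E₁ E₂ : Pic x, dot x L L = 1 ∧ dot x E₀ E₀ = -1 ∧
      dot x E₁ E₁ = -1 ∧ dot x E₂ E₂ = -1 ∧ dot x L E₀ = 0 ∧ dot x L E₁ = 0 ∧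
      dot x L E₂ = 0 ∧ dot x E₀ E₁ = 0 ∧ dot x E₀ E₂ = 0 ∧ dot x E₁ E₂ = 0 ∧
      K x = (-3 : ℤ) • L + E₀ + E₁ + E₂ ∧
      ∀ C, ∃ a b c e : ℤ, C = a • L + b • E₀ + c • E₁ + e • E₂)

attribute [instance] Surfaces.grp

/-! ### blow ups of the plane in at most six general points -/

/-- classes on the blow up of the plane in `r` points `E_1, …, E_r`: the pair `(x, m)` stands
for `x L - ∑ m_i E_i` -/
abbrev Cls (r : ℕ) : Type := ℤ × (Fin r → ℤ)

/-- the intersection form -/
def ip {r : ℕ} (u v : Cls r) : ℤ := u.1 * v.1 - ∑ i, u.2 i * v.2 i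

/-- the canonical class `-3 L + ∑ E_i` -/
def can (r : ℕ) : Cls r := (-3, fun _ => -1)

/-- the `(-1)`-curves for `r ≤ 6` general points: the exceptional curves `E_i`, the lines
through two of the points and the conics through five of them -/
def IsExc {r : ℕ} (v : Cls r) : Prop :=
  (∃ i, v = (0, fun l => if l = i then -1 else 0)) ∨
  (∃ i j, i ≠ j ∧ v = (1, fun l => if l = i ∨ l = j then 1 else 0)) ∨
  (∃ T : Finset (Fin r), T.card = 5 ∧ v = (2, fun l => if l ∈ T then 1 else 0))

/-- The published theorems on curves and surfaces in projective space that are used. -/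
structure Facts extends Surfaces where
  /-- Castelnuovo theory (Harris, Eisenbud-Harris; Chiantini-Ciliberto-Di Gennaro, The genus of
  projective curves, Duke 1993): for given `n ≥ 3` and `s` the curves of large degree `d` in
  `P^n` which lie on no integral surface of degree `< s` have genus at most
  `d ^ 2 / (2 s) + O(d)`. -/
  castelnuovo : ∀ n s : ℕ, 3 ≤ n → ∃ c : ℕ, ∀ d ≥ c, ∀ g I, IsCurve n d g I →
    (∃ (s' : ℕ) (J : Ideal (S n)), s' < s ∧ J ≤ I ∧ IsSurface n s' J) ∨
      2 * s * g ≤ d ^ 2 + c * d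
  /-- Let `T` be an integral nondegenerate surface of degree `s` in `P^n`, `x` the minimal
  resolution of its normalisation and `H` the pull back of `O(1)`.  Then `H` is base point free,
  `H ^ 2 = s`, `H · E > 0` for all `(-1)`-curves `E`, `h⁰(H) ≥ n + 1`.  A smooth curve on `T` of
  degree `d > s ^ 2` is not contained in the singular locus of `T` (whose one-dimensional part
  has degree at most `s (s - 1)`), so it is isomorphic to its strict transform `C`;
  `H · C = d`, and `C ^ 2 + K C = 2 g - 2` by the adjunction formula. -/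
  resolution : ∀ (n s : ℕ) (J : Ideal (S n)), IsSurface n s J →
    (∀ f ∈ J, f.IsHomogeneous 1 → f = 0) →
    ∃ (x : X) (H : Pic x), H ∈ Free x ∧ dot x H H = s ∧ (∀ E ∈ Exc x, 0 < dot x H E) ∧
      n + 1 ≤ h0 x H ∧
      ∀ (d g : ℕ) (I : Ideal (S n)), IsCurve n d g I → J ≤ I → s ^ 2 < d →
        ∃ C ∈ Cur x, dot x H C = d ∧ dot x C C + dot x (K x) C = 2 * (g : ℤ) - 2
  /-- Del Pezzo surfaces of degree at least three: the blow up of the plane in `r ≤ 6`, `r ≥ 2`,
  general points.  A class `h` with `h · e > 0` for all `(-1)`-curves `e` is very ample (Di Rocco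
  1996) and `h⁰(h) = (h ^ 2 - K h) / 2 + 1`.  A class `c` with `c · e ≥ 0` for all `(-1)`-curves
  `e` and `c ^ 2 > 0` is base point free, hence contains a smooth irreducible curve (Demazure,
  Bertini); in `P^N`, `N = h⁰(h) - 1`, it has degree `h · c`, its genus is given by
  `2 g - 2 = c ^ 2 + K c`, and it is nondegenerate if `h - c` is not effective, for example if
  `h - c` is negative on the nef class `L - E_i`. -/
  delPezzo : ∀ r : ℕ, 2 ≤ r → r ≤ 6 → ∀ h c : Cls r,
    (∀ e, IsExc e → 0 < ip h e) → (∀ e, IsExc e → 0 ≤ ip c e) → 0 < ip c c →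
    (∃ i : Fin r, ip (h - c) (1, fun l => if l = i then 1 else 0) < 0) →
    ∀ N d g : ℕ, 2 * (N : ℤ) = ip h h - ip (can r) h → (d : ℤ) = ip h c →
      2 * (g : ℤ) - 2 = ip c c + ip (can r) c → G N d g
  /-- Knutsen (Smooth curves on projective K3 surfaces, Math. Scand. 2002): for `N ≥ 3` a smooth
  curve of degree `d` and genus `g` with `g < d ^ 2 / (4 (N - 1))` lies on a K3 surface of degree
  `2 (N - 1)` in `P^N`, except for `(d, g) = (2 N - 1, N)`; it is nondegenerate if
  `d > 2 (N - 1)`. -/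
  knutsen : ∀ N d g : ℕ, 3 ≤ N → 2 * N ≤ d → 4 * (N - 1) * g < d ^ 2 → G N d g

end Pool.Agent.H95.GN
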