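import Pool.Agent.H95.GN.Exist
import Pool.Agent.H95.GN.Count

/-!
# Assembly
-/

namespace Pool.Agent.H95.GN

open Finset

/-- genera above the threshold: a smooth curve of large degree `d` whose genus exceeds
`d ^ 2 / (2 thr) + O(d)` is of one of the listed types -/
theorem above (F : Facts) (n : ℕ) (hn : 3 ≤ n) :
    ∃ C : ℕ, ∀ d ≥ C, ∀ g, G n d g → d ^ 2 + C * d < 2 * thr n * g →
      Scroll (thr n) d g ∨ Plane (thr n) d g ∨ Hirz (thr n) d g ∨
      (n % 3 ≠ 2 ∧ Blow (thr n) d g) ∨ (n % 3 = 0 ∧ 6 ≤ n ∧ Tern (n / 3 - 1) d g) := by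
  obtain ⟨c, hc⟩ := F.castelnuovo n (thr n) hn
  refine ⟨c + (thr n) ^ 2 + 1, fun d hd g hG hgt => ?_⟩
  obtain ⟨I, hI⟩ := hG
  have hdc : c ≤ d := by omega
  rcases hc d hdc g I hI with ⟨s', J, hs', hJI, hJ⟩ | hle
  · -- the curve lies on a surface of degree `s' < thr n`
    have hs'd : s' ^ 2 < d := by
      have : s' ^ 2 ≤ (thr n) ^ 2 := Nat.pow_le_pow_left hs'.le 2
      omega
    obtain ⟨x, H, hfree, hHH, hE, hh0, hcur⟩ := F.resolution n s' J hJ
      (fun f hf h1 => hI.nondeg f (hJI hf) h1)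
    obtain ⟨C, hC, hHC, hadj⟩ := hcur d g I hI hJI hs'd
    have hs'pos : 0 < s' := hJ.pos
    have hthr : thr n = n + n / 3 - 1 := rfl
    have hs'' : (s' : ℤ) < (thr n : ℤ) := by exact_mod_cast hs'
    have hkey : ∀ r : ℤ, ∀ b : ℕ, 6 ≤ r + 4 →
        (∀ p : ℤ, p ≤ s' + 1 - n → (s' : ℤ) - 4 * p ≤ 2 → p = b ∧ (s' : ℤ) = 4 * b + 2) →
        (∀ p : ℤ, p ≤ s' + 1 - n → r ≤ (s' : ℤ) - 4 * p) →
        Scroll (thr n) d g ∨ Plane (thr n) d g ∨ (r + 4 ≤ 8 ∧ Hirz (thr n) d g) ∨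
        (r + 4 ≤ 7 ∧ Blow (thr n) d g) ∨ (r + 4 ≤ 6 ∧ 1 ≤ b ∧ Tern b d g) := by
      intro r b hr hb hgap
      refine classify F.toSurfaces x H C n (thr n) d g b r hr ?_ hfree ?_ ?_ hE hh0 ?_ ?_
        hC hHC hadj
      · rw [hHH]; exact hb
      · rw [hHH]; exact_mod_cast hs'pos
      · rw [hHH]; exact hs''
      · rw [hHH]
        omega
      · rw [hHH]; exact hgap
    have h3 : n % 3 = 0 ∨ n % 3 = 1 ∨ n % 3 = 2 := by omega
    rcases h3 with h0 | h1 | h2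
    · have := hkey 2 (n / 3 - 1) (by norm_num) (by intro p hp h; omega) (by intro p hp; omega)
      rcases this with h | h | h | h | h
      · exact Or.inl h
      · exact Or.inr (Or.inl h)
      · exact Or.inr (Or.inr (Or.inl h.2))
      · exact Or.inr (Or.inr (Or.inr (Or.inl ⟨by omega, h.2⟩)))
      · exact Or.inr (Or.inr (Or.inr (Or.inr ⟨h0, by omega, h.2.2⟩)))
    · have := hkey 3 0 (by norm_num) (by intro p hp h; omega) (by intro p hp; omega)
      rcases this with h | h | h | h | h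
      · exact Or.inl h
      · exact Or.inr (Or.inl h)
      · exact Or.inr (Or.inr (Or.inl h.2))
      · exact Or.inr (Or.inr (Or.inr (Or.inl ⟨by omega, h.2⟩)))
      · exact absurd h.1 (by norm_num)
    · have := hkey 4 0 (by norm_num) (by intro p hp h; omega) (by intro p hp; omega)
      rcases this with h | h | h | h | h
      · exact Or.inl h
      · exact Or.inr (Or.inl h)
      · exact Or.inr (Or.inr (Or.inl h.2))
      · exact absurd h.1 (by norm_num)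
      · exact absurd h.1 (by norm_num)
  · exfalso
    have : (c + (thr n) ^ 2 + 1) * d = c * d + ((thr n) ^ 2 + 1) * d := by ring
    rw [this] at hgt
    omega

/-- a set of `g` with `2 m g` in a short interval -/
lemma card_mid (m C₁ C₂ d : ℕ) (hm : 1 ≤ m) (E : Finset ℕ)
    (hE : ∀ g ∈ E, d ^ 2 < m * g + C₁ * d ∧ m * g ≤ d ^ 2 + C₂ * d) :
    E.card ≤ (C₁ + C₂) * d + 1 := by
  rcases E.eq_empty_or_nonempty with rfl | hne
  · simp
  · set a := E.min' hne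
    set b := E.max' hne
    have ha := hE a (E.min'_mem hne)
    have hb := hE b (E.max'_mem hne)
    have hsub : E ⊆ Icc a b := by
      intro g hg
      rw [mem_Icc]
      exact ⟨E.min'_le g hg, E.le_max' g hg⟩
    have hab : a ≤ b := E.min'_le b (E.max'_mem hne)
    refine le_trans (card_le_card hsub) ?_
    rw [Nat.card_Icc]
    have h1 : m * b < m * a + (C₁ + C₂) * d := by
      have : (C₁ + C₂) * d = C₁ * d + C₂ * d := by ring
      omega
    have h2 : m * (b - a) < (C₁ + C₂) * d + 1 := by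
      rw [Nat.mul_sub]; omega
    have h3 : b - a ≤ m * (b - a) := Nat.le_mul_of_pos_left _ hm
    omega

/-- **The theorem**, with the sieve lemma, the three squares theorem and the existence result on
the ternary level as inputs. -/
theorem main_of (F : Facts) (ts : ∀ m : ℕ, ∃ a b c : ℕ, 8 * m + 3 = a ^ 2 + b ^ 2 + c ^ 2)
    (sv : ∀ (σ : ℕ), 0 < σ → ∀ ε : ℝ, 0 < ε → ∃ D : ℕ, ∀ (A : ℤ) (L : ℕ),
      D ≤ L → ∀ F : Finset ℕ, (∀ g ∈ F, g < L ∧ ∀ q : ℕ, q.Prime →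
        ¬ IsSquare (-(σ : ZMod q)) → (q : ℤ) ∣ A - σ * (8 * g - 1) →
          (q : ℤ) ^ 2 ∣ A - σ * (8 * g - 1)) → (F.card : ℝ) ≤ ε * L)
    (te : ∀ n : ℕ, n % 3 = 0 → 6 ≤ n → ∃ C : ℕ, ∀ d ≥ C, ∀ g,
      d ^ 2 + C * d ≤ 2 * thr n * g → Tern (n / 3 - 1) d g → G n d g)
    (n : ℕ) (hn : 3 ≤ n) :
    (∀ ε : ℝ, 0 < ε → ∃ D : ℕ, ∀ d ≥ D, ∀ E : Finset ℕ,
      (∀ g ∈ E, ¬ (G n d g ↔ Answer n d g)) → (E.card : ℝ) ≤ ε * d ^ 2) ∧
    (n % 3 = 2 → ∃ C : ℕ, ∀ d ≥ C, ∀ E : Finset ℕ,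
      (∀ g ∈ E, ¬ (G n d g ↔ Answer n d g)) → E.card ≤ C * d) ∧
    (∃ C : ℕ, ∀ d ≥ C, ∀ g, 2 * thr n * g + C * d ≤ d ^ 2 → G n d g) := by
  classical
  obtain ⟨C₁, hC₁⟩ := exist F ts n hn
  obtain ⟨C₂, hC₂⟩ := above F n hn
  obtain ⟨C₃, hC₃⟩ : ∃ C : ℕ, n % 3 = 0 → 6 ≤ n → ∀ d ≥ C, ∀ g,
      d ^ 2 + C * d ≤ 2 * thr n * g → Tern (n / 3 - 1) d g → G n d g := by
    by_cases h : n % 3 = 0 ∧ 6 ≤ n
    · obtain ⟨C, hC⟩ := te n h.1 h.2
      exact ⟨C, fun _ _ => hC⟩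
    · exact ⟨0, fun h1 h2 => absurd ⟨h1, h2⟩ h⟩
  have hthr : 1 ≤ thr n := by unfold thr; omega
  -- the general decomposition
  have decomp : ∀ d ≥ C₁ + C₂ + C₃, ∀ E : Finset ℕ, (∀ g ∈ E, ¬ (G n d g ↔ Answer n d g)) →
      E.card ≤ (C₁ + (C₂ + C₃)) * d + 1 + (E.filter (fun g => Scroll (thr n) d g ∨
        Plane (thr n) d g ∨ Hirz (thr n) d g)).card +
        (E.filter (fun g => n % 3 ≠ 2 ∧ Blow (thr n) d g)).card := by
    intro d hd E hE
    set E₀ := E.filter (fun g => d ^ 2 < 2 * thr n * g + C₁ * d ∧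
      2 * thr n * g ≤ d ^ 2 + (C₂ + C₃) * d) with hE₀
    have hmid : E₀.card ≤ (C₁ + (C₂ + C₃)) * d + 1 :=
      card_mid (2 * thr n) C₁ (C₂ + C₃) d (by omega) E₀ (fun g hg => (mem_filter.mp hg).2)
    have hsub : E ⊆ (E₀ ∪ (E.filter (fun g => Scroll (thr n) d g ∨
        Plane (thr n) d g ∨ Hirz (thr n) d g))) ∪
        (E.filter (fun g => n % 3 ≠ 2 ∧ Blow (thr n) d g)) := by
      intro g hg
      have hbad := hE g hg
      rw [mem_union, mem_union, hE₀, mem_filter, mem_filter, mem_filter]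
      by_cases hlow : 2 * thr n * g + C₁ * d ≤ d ^ 2
      · exfalso
        apply hbad
        have h1 := hC₁ d (by omega) g hlow
        exact ⟨fun _ => Or.inl (by omega), fun _ => h1⟩
      · push Not at hlow
        by_cases hmid2 : 2 * thr n * g ≤ d ^ 2 + (C₂ + C₃) * d
        · exact Or.inl (Or.inl ⟨hg, hlow, hmid2⟩)
        · push Not at hmid2
          have e1 : (C₂ + C₃) * d = C₂ * d + C₃ * d := by ring
          by_cases hG : G n d g
          · rcases hC₂ d (by omega) g hG (by omega) with h | h | h | h | h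
            · exact Or.inl (Or.inr ⟨hg, Or.inl h⟩)
            · exact Or.inl (Or.inr ⟨hg, Or.inr (Or.inl h)⟩)
            · exact Or.inl (Or.inr ⟨hg, Or.inr (Or.inr h)⟩)
            · exact Or.inr ⟨hg, h⟩
            · exact absurd ⟨fun _ => Or.inr h, fun _ => hG⟩ hbad
          · exfalso
            apply hbad
            refine ⟨fun h => absurd h hG, fun h => ?_⟩
            rcases h with h | ⟨h0, h6, hT⟩
            · omega
            · exact hC₃ h0 h6 d (by omega) g (by omega) hT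
    have h2 := le_trans (card_le_card hsub) (le_trans (card_union_le _ _)
      (Nat.add_le_add_right (card_union_le _ _) _))
    omega
  obtain ⟨C₄, hC₄⟩ := count_lin (thr n)
  refine ⟨fun ε hε => ?_, fun h2 => ?_, C₁, hC₁⟩
  · -- the general case
    obtain ⟨D, hD⟩ := count_blow sv (thr n) (ε / 2) (by positivity)
    obtain ⟨K, hK⟩ : ∃ K : ℕ, 2 * ((C₁ + (C₂ + C₃) + C₄ : ℕ) + 1 : ℝ) / ε ≤ K :=
      exists_nat_ge _
    refine ⟨C₁ + C₂ + C₃ + D + K + 1, fun d hd E hE => ?_⟩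
    have h1 := decomp d (by omega) E hE
    have h3 := hC₄ d (by omega) (E.filter (fun g => Scroll (thr n) d g ∨
        Plane (thr n) d g ∨ Hirz (thr n) d g)) (fun g hg => (mem_filter.mp hg).2)
    have h4 := hD d (by omega) (E.filter (fun g => n % 3 ≠ 2 ∧ Blow (thr n) d g))
      (fun g hg => (mem_filter.mp hg).2.2)
    have h5 : E.card ≤ (C₁ + (C₂ + C₃) + C₄ + 1) * d +
        (E.filter (fun g => n % 3 ≠ 2 ∧ Blow (thr n) d g)).card := by
      have e : (C₁ + (C₂ + C₃) + C₄ + 1) * d = (C₁ + (C₂ + C₃)) * d + C₄ * d + d := by ring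
      have hd1 : 1 ≤ d := by omega
      omega
    have h6 : (E.card : ℝ) ≤ ((C₁ + (C₂ + C₃) + C₄ : ℕ) + 1 : ℝ) * d + ε / 2 * d ^ 2 := by
      have : (E.card : ℝ) ≤ (((C₁ + (C₂ + C₃) + C₄ + 1) * d : ℕ) : ℝ) +
          ((E.filter (fun g => n % 3 ≠ 2 ∧ Blow (thr n) d g)).card : ℝ) := by
        exact_mod_cast h5
      push_cast at this ⊢
      linarith
    have hdK : (K : ℝ) ≤ d := by
      have : K ≤ d := by omega
      exact_mod_cast this
    have h7 : ((C₁ + (C₂ + C₃) + C₄ : ℕ) + 1 : ℝ) ≤ ε / 2 * d := by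
      have h8 : 2 * ((C₁ + (C₂ + C₃) + C₄ : ℕ) + 1 : ℝ) / ε ≤ d := le_trans hK hdK
      rw [div_le_iff₀ hε] at h8
      linarith
    have hd0 : (0 : ℝ) ≤ d := by positivity
    have h9 := mul_le_mul_of_nonneg_right h7 hd0
    calc (E.card : ℝ) ≤ _ := h6
      _ ≤ ε / 2 * d * d + ε / 2 * d ^ 2 := by linarith
      _ = ε * d ^ 2 := by ring
  · -- `n = 2 mod 3`
    refine ⟨C₁ + C₂ + C₃ + C₄ + 1, fun d hd E hE => ?_⟩
    have h1 := decomp d (by omega) E hE
    have h3 := hC₄ d (by omega) (E.filter (fun g => Scroll (thr n) d g ∨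
        Plane (thr n) d g ∨ Hirz (thr n) d g)) (fun g hg => (mem_filter.mp hg).2)
    have h4 : (E.filter (fun g => n % 3 ≠ 2 ∧ Blow (thr n) d g)).card = 0 := by
      rw [card_eq_zero, filter_eq_empty_iff]
      intro g _ h
      exact h.1 h2
    have e : (C₁ + C₂ + C₃ + C₄ + 1) * d = (C₁ + (C₂ + C₃)) * d + C₄ * d + d := by ring
    have hd1 : 1 ≤ d := by omega
    omega

end Pool.Agent.H95.GN
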